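import Pool.Agent.Helper812_AF.Sorted

/-!
# The conjectures imply the existence of the motivic t-structure
-/

set_option autoImplicit false
set_option linter.unusedSectionVars false
set_option linter.unusedSimpArgs false
set_option backward.isDefEq.respectTransparency false
set_option backward.defeqAttrib.useBackward true

open CategoryTheory Limits MonoidalCategory Pretriangulated Triangulated ZeroObject ObjectProperty

namespace Pool.Agent.Helper812_AF

open Pool.Agent.Y116.MT Pool.Agent.V1178.MT Pool.Agent.Helper812_LT Pool.Agent.Helper812_MT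
open Pool.Agent.Helper812_FF

universe v u w

section

variable {C : Type u} [Category.{v} C] [Preadditive C] [Linear ℚ C] [HasZeroObject C]
  [HasShift C ℤ] [∀ n : ℤ, (shiftFunctor C n).Additive] [Pretriangulated C] [MonoidalCategory C]
  [SymmetricCategory C] [TensorTriangulated C] [MonoidalPreadditive C] [RightRigidCategory C]
  [IsTriangulated C] [IsIdempotentComplete C]
  {Λ : Type*} {E : Λ → Type w} [∀ l, Field (E l)]
  {R : ∀ l, Realisation C (E l)} {P : ObjectProperty C}

lemma srtS_inDegrees (k : ℕ) : ∀ (a : ℤ) (X : C), srt (S R P) a k X →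
    InDegrees R (Set.Ico a (a + k)) X := by
  induction k with
  | zero => intro a X hX; exact inDegrees_of_isZero hX _
  | succ k ih =>
    rintro a X ⟨Y, Z, f, g, h, hT, hY, hZ⟩
    refine InDegrees.ext hT (InDegrees.mono (S_inDegrees a Y hY) ?_)
      (InDegrees.mono (ih (a + 1) Z hZ) ?_)
    · intro i hi
      simp only [Set.mem_singleton_iff, Set.mem_Ico] at hi ⊢
      push_cast
      omega
    · intro i hi
      simp only [Set.mem_Ico] at hi ⊢
      push_cast
      omega

lemma srtS_shift (k : ℕ) : ∀ (a m : ℤ) (X : C), srt (S R P) a k X →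
    srt (S R P) (a - m) k (X⟦m⟧) := by
  induction k with
  | zero => intro a m X hX; exact isZero_shift hX m
  | succ k ih =>
    rintro a m X ⟨Y, Z, f, g, h, hT, hY, hZ⟩
    have h1 := ih (a + 1) m Z hZ
    rw [show a + 1 - m = a - m + 1 by ring] at h1
    exact ⟨_, _, _, _, _, Triangle.shift_distinguished _ hT m, S_shift a m Y hY, h1⟩

variable (hP : ChowMotives P) (hK : KunnethDecompositions P R) (hV : VanishingConjectures P R)

include hP hK hV

/-- Orthogonality for sorted objects. -/
lemma hom_srtS {a b : ℤ} {k m : ℕ} (hab : a + k ≤ b) {X Y : C} (hX : srt (S R P) a k X)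
    (hY : srt (S R P) b m Y) (f : X ⟶ Y) : f = 0 := by
  refine hom_srt_left k a X hX (fun i V h1 h2 hV' => ?_) f
  exact hom_srt_right m b Y hY (fun j W h3 h4 hW => hom_S hP hK hV (by omega) hV' hW)

variable (hq : ∀ e : 𝟙_ C ⟶ 𝟙_ C, ∃ a : ℚ, e = a • 𝟙 _) (hN : NumericalInDegreeZero P R) (l : Λ)

include hq hN l

/-- A sorted object has sorted truncations. -/
lemma sortedS_trunc {X : C} (hX : sorted (S R P) X) : ∃ (A B : C) (f : A ⟶ X) (g : X ⟶ B)
    (h : B ⟶ A⟦(1 : ℤ)⟧) (a b : ℤ) (j m : ℕ), Triangle.mk f g h ∈ distTriang C ∧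
      srt (S R P) a j A ∧ srt (S R P) b m B ∧ a + j = 1 ∧ b = 1 := by
  obtain ⟨a, k, hX⟩ := hX
  have h3 := srt_mono (S R P) S_zero (S_ext hP hK hV) (S_swap hP hK hV hq hN l) a (min a 0) k
    (k + a.natAbs + 1) (min_le_left _ _) (by omega) X hX
  obtain ⟨j, hj⟩ := Int.eq_ofNat_of_zero_le (show 0 ≤ 1 - min a 0 by omega)
  obtain ⟨m, hm⟩ := Int.eq_ofNat_of_zero_le
    (show 0 ≤ ((k + a.natAbs + 1 : ℕ) : ℤ) - j by omega)
  obtain ⟨A, B, f, g, h, hT, hA, hB⟩ := srt_split (S R P) j (min a 0) 1
    (k + a.natAbs + 1) m (by omega) (by omega) X h3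
  exact ⟨A, B, f, g, h, min a 0, 1, j, m, hT, hA, hB, by omega, rfl⟩

/-- The truncations of a direct summand of a sorted object. -/
theorem retractS_trunc {X X' : C} (i : X ⟶ X') (r : X' ⟶ X) (hir : i ≫ r = 𝟙 _)
    (hX' : sorted (S R P) X') : IsExtension R (Set.Iic 0) (Set.Ioi 0) X := by
  obtain ⟨A', B', α, g, h, a, b, j, m, hT, hA1, hB1, hj, hb⟩ :=
    sortedS_trunc hP hK hV hq hN l hX'
  have hA2 : InDegrees R (Set.Iic 0) A' := InDegrees.mono (srtS_inDegrees _ _ _ hA1) fun n hn => by
    simp only [Set.mem_Ico, Set.mem_Iic] at hn ⊢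
    omega
  have hB2 : InDegrees R (Set.Ioi 0) B' := InDegrees.mono (srtS_inDegrees _ _ _ hB1) fun n hn => by
    simp only [Set.mem_Ico, Set.mem_Ioi] at hn ⊢
    omega
  obtain ⟨eA, heA⟩ := ce2 hT (α ≫ r ≫ i) (by
    rw [Category.assoc, Category.assoc]
    exact hom_srtS hP hK hV (by omega) hA1 hB1 _)
  have hinj : ∀ δ : A' ⟶ A', δ ≫ α = 0 → δ = 0 := by
    intro δ hδ
    obtain ⟨n, hn⟩ := ce1 hT (δ⟦(1 : ℤ)⟧') (by rw [← Functor.map_comp, hδ, Functor.map_zero])
    have h3 : n = 0 := hom_srtS hP hK hV (by omega) (srtS_shift j a 1 A' hA1) hB1 n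
    rw [h3, zero_comp] at hn
    exact (shiftFunctor C (1 : ℤ)).map_injective (by rw [hn, Functor.map_zero])
  have hidem : eA ≫ eA = eA := by
    rw [← sub_eq_zero]
    apply hinj
    rw [Preadditive.sub_comp, Category.assoc, ← heA, ← Category.assoc, ← heA]
    simp only [Category.assoc, reassoc_of% hir, sub_self]
  obtain ⟨A, s, u, hsu, hus⟩ := IsIdempotentComplete.idempotents_split A' eA hidem
  obtain ⟨B, g', h', hT'⟩ := distinguished_cocone_triangle (s ≫ α ≫ r)
  refine ⟨A, B, _, g', h', hT', InDegrees.retract s u hsu hA2, fun l' n hn => ?_⟩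
  have key : ∀ m : ℤ, m ≤ 0 → IsIso ((R l').H.map ((s ≫ α ≫ r)⟦m⟧')) := by
    intro m hm
    let F : C ⥤ ModuleCat.{w} (E l') := shiftFunctor C m ⋙ (R l').H
    have hα : IsIso (F.map α) := by
      have h3 := hmono1 (R l').H hT m (hB2 l' _ (by simp only [Set.mem_Ioi]; omega))
      have h4 := hepi1 (R l').H hT m (hB2 l' _ (by simp only [Set.mem_Ioi]; omega))
      exact isIso_of_mono_of_epi (C := ModuleCat.{w} (E l')) ((R l').H.map (α⟦m⟧'))
    have h5 : F.map α ≫ F.map r ≫ F.map i = F.map eA ≫ F.map α := by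
      rw [← Functor.map_comp, ← Functor.map_comp, ← Functor.map_comp, heA]
    change IsIso (F.map (s ≫ α ≫ r))
    refine ⟨F.map i ≫ inv (F.map α) ≫ F.map u, ?_, ?_⟩
    · rw [Functor.map_comp, Functor.map_comp, Category.assoc, Category.assoc,
        reassoc_of% h5, IsIso.hom_inv_id_assoc, ← Functor.map_comp, ← Functor.map_comp, ← hus]
      simp only [Category.assoc, hsu, Category.comp_id, CategoryTheory.Functor.map_id]
    · have h6 : F.map u ≫ F.map s = F.map eA := by rw [← Functor.map_comp, hus]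
      rw [Functor.map_comp, Functor.map_comp]
      simp only [Category.assoc]
      rw [reassoc_of% h6, ← reassoc_of% h5, IsIso.inv_hom_id_assoc, ← Functor.map_comp,
        ← Functor.map_comp, ← Functor.map_comp]
      simp only [Category.assoc, hir, reassoc_of% hir, CategoryTheory.Functor.map_id]
  have hn' : n ≤ 0 := by simpa using hn
  have k1 := key n hn'
  refine cone_vanish (R l').H hT' n inferInstance ?_
  by_cases hn1 : n + 1 ≤ 0
  · have k2 := key (n + 1) hn1
    infer_instance
  · have h6 := (InDegrees.retract s u hsu hA2) l' (n + 1) (by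
      simp only [Set.mem_Iic]
      omega)
    constructor
    intro W a b _
    exact h6.eq_of_tgt _ _

/-- The endomorphisms of a sorted object with zero realisation are nilpotent. -/
lemma nilp_srtS (k : ℕ) : ∀ (a : ℤ) (X : C), srt (S R P) a k X → Nilp (R l) X := by
  induction k with
  | zero => intro a X hX; exact nilp_zero hX
  | succ k ih =>
    rintro a X ⟨Y, Z, f, g, h, hT, hY, hZ⟩
    have hY1 := S_inDegrees a Y hY
    have hZ1 := srtS_inDegrees k (a + 1) Z hZ
    refine nilp_ext hT (hom_srt_right k (a + 1) Z hZ fun i V h1 _ hV' =>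
        hom_S hP hK hV (by omega) hY hV') (fun i => ?_) (fun i => ?_)
        (nilp_S hP hK hV hq hN l a Y hY) (ih _ _ hZ)
    · by_cases hi : i = a
      · exact hmono1 (R l).H hT i (hZ1 l _ (by simp only [Set.mem_Ico]; omega))
      · exact ⟨fun u v _ => (hY1 l i (by simpa using hi)).eq_of_tgt _ _⟩
    · by_cases hi : i ≤ a
      · exact ⟨fun u v _ => (hZ1 l i (by simp only [Set.mem_Ico]; omega)).eq_of_src _ _⟩
      · exact hepi2 (R l).H hT i (hY1 l _ (by simp only [Set.mem_singleton_iff]; omega))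

/-- Every object is a direct summand of a sorted object. -/
theorem retract_sortedS (X : C) : (sorted (S R P)).retractClosure X := by
  have i0 : (sorted (S R P)).IsClosedUnderIsomorphisms :=
    ⟨fun e ⟨a, k, h⟩ => ⟨a, k, (srt (S R P) a k).prop_of_iso e h⟩⟩
  have he : extensionProduct (sorted (S R P)) (sorted (S R P)) ≤ sorted (S R P) :=
    sorted_ext (S R P) S_zero (S_ext hP hK hV) (S_swap hP hK hV hq hN l)
  have i1 : (sorted (S R P)).ContainsZero := ⟨0, isZero_zero C, 0, 0, isZero_zero C⟩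
  have i2 : (sorted (S R P)).IsStableUnderShift ℤ :=
    ⟨fun m => ⟨fun X ⟨a, k, hX⟩ => ⟨_, _, srtS_shift k a m X hX⟩⟩⟩
  have i3 : (sorted (S R P)).retractClosure.IsTriangulatedClosed₂ := by
    apply IsTriangulatedClosed₂.mk'
    intro T hT h4 h5
    have h6 := extensionProduct_retractClosure_retractClosure_le (sorted (S R P))
      (sorted (S R P)) T.obj₂ ⟨_, _, _, _, _, hT, h4, h5⟩
    exact monotone_retractClosure he _ h6
  have i4 : (sorted (S R P)).retractClosure.IsStableUnderShift ℤ := by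
    refine ⟨fun m => ⟨fun X hX => ?_⟩⟩
    obtain ⟨Y, hY, ⟨e⟩⟩ := hX
    exact ⟨Y⟦m⟧, i2.isStableUnderShiftBy m |>.le_shift _ hY, ⟨e.map (shiftFunctor C m)⟩⟩
  have i5 : (sorted (S R P)).retractClosure.ContainsZero :=
    ⟨0, isZero_zero C, le_retractClosure _ _ ⟨0, 0, isZero_zero C⟩⟩
  have i6 : (sorted (S R P)).retractClosure.IsTriangulated := {}
  have h1 : ∀ Y : C, IsSumOf (fun Z => P Z ∧ ∃ n : ℤ, InDegrees R {n} Z) Y →
      sorted (S R P) Y := by
    intro Y hY
    induction hY with
    | base Y hY =>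
      obtain ⟨hY, n, hn⟩ := hY
      have h2 : S R P n Y := GG_le_S n Y ⟨n, Y, hY, hn,
        ⟨((shiftFunctorZero' C (n - n) (by ring)).app Y).symm⟩⟩
      exact ⟨n, 1, Y, _, 𝟙 Y, 0, 0, contractible_distinguished Y, h2, isZero_zero C⟩
    | sum X₁ X₂ Y _ _ e h1 h2 =>
      obtain ⟨e⟩ := e
      exact (sorted (S R P)).prop_of_iso e.symm
        (he _ ⟨X₁, X₂, _, _, _, binaryBiproductTriangle_distinguished X₁ X₂, h1, h2⟩)
  have h4 : P.triangEnvelope ≤ (sorted (S R P)).retractClosure := by
    rw [triangEnvelope_le_iff]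
    intro X hX
    exact le_retractClosure _ _ (h1 X (hK X hX))
  rw [(isClassicalTriangulatedGenerator_iff _).1 hP.generates] at h4
  exact h4 X trivial

/-- The conjectures on Chow motives imply the existence of a motivic t-structure. -/
theorem motivic_of_conjectures : ∃ t : TStructure C, IsMotivic t R := by
  have hc : Conservative (R l) := by
    intro X hX
    obtain ⟨X', ⟨a, k, hX'⟩, ⟨e⟩⟩ := retract_sortedS hP hK hV hq hN l X
    exact isZero_of_nilp (nilp_srtS hP hK hV hq hN l k a X' hX') e.i e.r e.retract hX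
  have h1 : TruncationsLift R := by
    intro X
    obtain ⟨X', hX', ⟨e⟩⟩ := retract_sortedS hP hK hV hq hN l X
    exact retractS_trunc hP hK hV hq hN l e.i e.r e.retract hX'
  exact ⟨tStr hc h1, tStr_motivic hc h1⟩

end

end Pool.Agent.Helper812_AF
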