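import Pool.Agent.Helper812_FF.Defs
import Pool.Agent.Helper812_LT.Defs
import Pool.Agent.Helper812_MT.Defs

/-!
# The conjectures on Chow motives which are equivalent to the existence of a motivic t-structure
-/

set_option autoImplicit false

open CategoryTheory Limits MonoidalCategory Pretriangulated Triangulated

namespace Pool.Agent.Helper812_AF

open Pool.Agent.Y116.MT Pool.Agent.Helper812_MT Pool.Agent.Helper812_LT

universe v u w

section

variable {C : Type u} [Category.{v} C] [Preadditive C] [HasZeroObject C] [HasShift C ℤ]
  [∀ n : ℤ, (shiftFunctor C n).Additive] [Pretriangulated C] [MonoidalCategory C]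
  [SymmetricCategory C] [TensorTriangulated C]

/-- The hard Lefschetz theorem for the realisation `R` and the Lefschetz object `T` (which is
`𝟙(1)[2]` in a category of motives): `T` is invertible with cohomology in degree `-2`, and every
object of `P` is a direct summand of an object `Q` of `P` for which the hard Lefschetz theorem
holds. -/
structure HardLefschetzFor (P : ObjectProperty C) (T : C) {E : Type w} [Field E]
    (R : Realisation C E) : Prop where
  invertible : ∃ T' : C, Nonempty (T ⊗ T' ≅ 𝟙_ C)
  degree : R.Deg T (-2)
  lefschetz (X : C) : P X → ∃ (Q : C) (i : X ⟶ Q) (r : Q ⟶ X), i ≫ r = 𝟙 X ∧ P Q ∧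
    Lefschetz R T Q

/-- The finite direct sums of objects in the class `B`. -/
inductive IsSumOf (B : ObjectProperty C) : C → Prop
  | base (X : C) : B X → IsSumOf B X
  | sum (X Y Z : C) : IsSumOf B X → IsSumOf B Y → Nonempty (Z ≅ X ⊞ Y) → IsSumOf B Z

variable {Λ : Type*} {E : Λ → Type w} [∀ l, Field (E l)]

/-- Künneth decompositions: every Chow motive is a finite direct sum of Chow motives `Z`
with cohomology in a single degree (in the same degree for all realisations). -/
def KunnethDecompositions (P : ObjectProperty C) (R : ∀ l, Realisation C (E l)) : Prop :=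
  ∀ X : C, P X → IsSumOf (fun Z => P Z ∧ ∃ n : ℤ, InDegrees R {n} Z) X

/-- Homological and numerical equivalence agree, and there are no cycles which are homologically
trivial on Chow motives with cohomology in degree zero: for every non zero class `s : 𝟙 ⟶ X`, where
`X` is a Chow motive with cohomology in degree `0`, there is `r : X ⟶ 𝟙` with intersection number
`s ≫ r ≠ 0`. -/
def NumericalInDegreeZero (P : ObjectProperty C) (R : ∀ l, Realisation C (E l)) : Prop :=
  ∀ X : C, P X → InDegrees R {0} X → ∀ s : 𝟙_ C ⟶ X, s ≠ 0 → ∃ r : X ⟶ 𝟙_ C, s ≫ r ≠ 0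

/-- The vanishing conjectures of Murre and of Beilinson and Soulé: the motivic cohomology
`Hom(𝟙, X⟦n⟧)` of a Chow motive `X` with cohomology in degree `w` is zero for all `n ≤ w`, except
for `n = w = 0`. -/
def VanishingConjectures (P : ObjectProperty C) (R : ∀ l, Realisation C (E l)) : Prop :=
  ∀ X : C, P X → ∀ w n : ℤ, InDegrees R {w} X → n ≤ w → (n ≠ 0 ∨ w ≠ 0) →
    ∀ f : 𝟙_ C ⟶ X⟦n⟧, f = 0

end

end Pool.Agent.Helper812_AF
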