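import Pool.Agent.Helper812_AF.Twist

/-!
# The Lefschetz decomposition splits the truncations
-/

set_option autoImplicit false
set_option linter.unusedSectionVars false
set_option linter.unusedSimpArgs false
set_option backward.isDefEq.respectTransparency false
set_option backward.defeqAttrib.useBackward true

open CategoryTheory Limits MonoidalCategory Pretriangulated Triangulated

namespace Pool.Agent.Helper812_AF

open Pool.Agent.Y116.MT Pool.Agent.V1178.MT Pool.Agent.Helper812_LT Pool.Agent.Helper812_MT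
open Pool.Agent.Helper812_FF

universe v u w

section

variable {C : Type u} [Category.{v} C] [Preadditive C] [HasZeroObject C] [HasShift C ℤ]
  [∀ n : ℤ, (shiftFunctor C n).Additive] [Pretriangulated C] [IsTriangulated C]
  {t : TStructure C}

/-- The truncation triangles of `X` split. -/
def Spl (t : TStructure C) (X : C) : Prop :=
  ∀ n : ℤ, ∃ ρ : X ⟶ (t.truncLT n).obj X, (t.truncLTι n).app X ≫ ρ = 𝟙 _

lemma Spl.retract {X Y : C} (i : X ⟶ Y) (r : Y ⟶ X) (hir : i ≫ r = 𝟙 X) (h : Spl t Y) :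
    Spl t X := by
  intro n
  obtain ⟨ρ, hρ⟩ := h n
  refine ⟨i ≫ ρ ≫ (t.truncLT n).map r, ?_⟩
  have h1 : (t.truncLTι n).app X ≫ i = (t.truncLT n).map i ≫ (t.truncLTι n).app Y :=
    ((t.truncLTι n).naturality i).symm
  rw [reassoc_of% h1, reassoc_of% hρ, ← Functor.map_comp, hir, CategoryTheory.Functor.map_id]

lemma Spl.deco {X X₁ X₂ : C} {i₁ : X₁ ⟶ X} {r₁ : X ⟶ X₁} {i₂ : X₂ ⟶ X} {r₂ : X ⟶ X₂}
    (d : Deco i₁ r₁ i₂ r₂) (h₁ : Spl t X₁) (h₂ : Spl t X₂) : Spl t X := by
  intro n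
  obtain ⟨ρ₁, hρ₁⟩ := h₁ n
  obtain ⟨ρ₂, hρ₂⟩ := h₂ n
  refine ⟨r₁ ≫ ρ₁ ≫ (t.truncLT n).map i₁ + r₂ ≫ ρ₂ ≫ (t.truncLT n).map i₂, ?_⟩
  have h1 : (t.truncLTι n).app X ≫ r₁ = (t.truncLT n).map r₁ ≫ (t.truncLTι n).app X₁ :=
    ((t.truncLTι n).naturality r₁).symm
  have h2 : (t.truncLTι n).app X ≫ r₂ = (t.truncLT n).map r₂ ≫ (t.truncLTι n).app X₂ :=
    ((t.truncLTι n).naturality r₂).symm
  rw [Preadditive.comp_add, reassoc_of% h1, reassoc_of% hρ₁, reassoc_of% h2, reassoc_of% hρ₂]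
  exact (d.map (t.truncLT n)).sum

lemma Spl.single {X : C} {m : ℤ} (h1 : t.IsLE X m) (h2 : t.IsGE X m) : Spl t X := by
  intro n
  by_cases hn : n ≤ m
  · have h3 : t.IsGE X n := t.isGE_of_ge X n m hn
    exact ⟨0, (t.isZero_truncLT_obj_of_isGE n X).eq_of_src _ _⟩
  · have h3 : t.IsLE X (n - 1) := t.isLE_of_le X m (n - 1) (by omega)
    have h4 := (t.isLE_iff_isIso_truncLTι_app (n - 1) n (by omega) X).1 h3
    exact ⟨inv ((t.truncLTι n).app X), IsIso.hom_inv_id _⟩

end

section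

variable {C : Type u} [Category.{v} C] [Preadditive C] [HasZeroObject C] [HasShift C ℤ]
  [∀ n : ℤ, (shiftFunctor C n).Additive] [Pretriangulated C] [MonoidalCategory C]
  [SymmetricCategory C] [TensorTriangulated C] [IsTriangulated C] [MonoidalPreadditive C]
  [RightRigidCategory C] [IsIdempotentComplete C]
  {E : Type w} [Field E] {R : Realisation C E} {t : TStructure C}

/-- The lowest and the highest cohomology objects of `Q` are direct summands. -/
theorem outer_split (hc : Conservative R) (he : TExact t R) {T T' : C} (eT : T ⊗ T' ≅ 𝟙_ C)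
    (h1 : R.Deg T (-2)) {Q : C} {b c : ℤ} {k : ℕ} (hk : 0 < k) (hbc : b + 2 * k = c)
    (hge : t.IsGE Q b) (hle : t.IsLE Q c) (L : Q ⟶ twist T Q k)
    (hL : IsIso (R.H.map (L⟦b⟧'))) :
    ∃ (A B : C) (ι : A ⟶ Q) (ρ : Q ⟶ A) (σ : B ⟶ Q) (π : Q ⟶ B), ι ≫ ρ = 𝟙 _ ∧ σ ≫ π = 𝟙 _ ∧
      ι ≫ π = 0 ∧ σ ≫ ρ = 0 ∧ t.IsLE A b ∧ t.IsGE A b ∧ t.IsLE B c ∧ t.IsGE B c ∧
      Epi (R.H.map (ι⟦b⟧')) ∧ Mono (R.H.map (π⟦c⟧')) := by
  set A := (t.truncLT (b + 1)).obj Q with hA
  set B := (t.truncGE c).obj Q with hB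
  set ι : A ⟶ Q := (t.truncLTι (b + 1)).app Q with hι
  set π : Q ⟶ B := (t.truncGEπ c).app Q with hπ
  have hA1 : t.IsLE A b := inferInstance
  have hA2 : t.IsGE A b := inferInstance
  have hB1 : t.IsLE B c := inferInstance
  have hB2 : t.IsGE B c := inferInstance
  have hTA := t.triangleLTGE_distinguished (b + 1) Q
  have hTB := t.triangleLTGE_distinguished c Q
  have dA : R.Deg A b := TExact.deg' he hA1 hA2
  have dB : R.Deg B c := TExact.deg' he hB1 hB2
  have dB' : R.Deg (twist T B k) b := fun i hi =>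
    twist_isZero eT h1 (m := i + 2 * k) rfl (dB _ (by omega))
  have i1 : IsIso (R.H.map (ι⟦b⟧')) := by
    have h3 : t.IsGE ((t.truncGE (b + 1)).obj Q) (b + 1) := inferInstance
    have h4 := hmono1 R.H hTA b (he.isGE h3 _ (by omega))
    have h5 := hepi1 R.H hTA b (he.isGE h3 _ (by omega))
    exact isIso_of_mono_of_epi _
  have i2 : IsIso (R.H.map ((twm T π k)⟦b⟧')) := by
    have h3 : t.IsLE ((t.truncLT c).obj Q) (c - 1) := inferInstance
    obtain ⟨h', hT'⟩ := twm_dist T hTB k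
    have h4 := hmono2 R.H hT' b (twist_isZero eT h1 hbc (he.isLE h3 _ (by omega)))
    have h5 := hepi2 R.H hT' b (twist_isZero eT h1 (m := c + 1) (by omega)
      (he.isLE h3 _ (by omega)))
    exact isIso_of_mono_of_epi _
  have i3 : IsIso (ι ≫ L ≫ twm T π k) := by
    apply isIso_of_deg hc dA dB'
    rw [Functor.map_comp, Functor.map_comp, Functor.map_comp, Functor.map_comp]
    infer_instance
  obtain ⟨σ, hσ⟩ := twm_full eT k (inv (ι ≫ L ≫ twm T π k) ≫ ι ≫ L)
  have hσ1 : σ ≫ π = 𝟙 _ := by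
    apply twm_faithful eT k
    rw [twm_comp, hσ, twm_id, Category.assoc, Category.assoc, IsIso.inv_hom_id]
  have hρ1 : ι ≫ L ≫ twm T π k ≫ inv (ι ≫ L ≫ twm T π k) = 𝟙 _ := by
    rw [← Category.assoc, ← Category.assoc, Category.assoc ι L]
    exact IsIso.hom_inv_id _
  set ρ := L ≫ twm T π k ≫ inv (ι ≫ L ≫ twm T π k) with hρ
  have hιπ : ι ≫ π = 0 := t.zero_of_isLE_of_isGE _ b c (by omega) hA1 hB2
  refine ⟨A, B, ι, ρ, σ - σ ≫ ρ ≫ ι, π, hρ1, ?_, hιπ, ?_, hA1, hA2, hB1, hB2, inferInstance,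
    hmono2 R.H hTB c (he.isLE (inferInstance : t.IsLE ((t.truncLT c).obj Q) (c - 1)) _
      (by omega))⟩
  · rw [Preadditive.sub_comp, hσ1, Category.assoc, Category.assoc, hιπ, comp_zero, comp_zero,
      sub_zero]
  · rw [Preadditive.sub_comp, Category.assoc, Category.assoc, hρ1, Category.comp_id, sub_self]

/-- The Lefschetz decomposition. -/
theorem spl_of_lefschetz (hc : Conservative R) (he : TExact t R) {T T' : C} (eT : T ⊗ T' ≅ 𝟙_ C)
    (h1 : R.Deg T (-2)) (e : ℤ) (K : ℕ) : ∀ Q : C, t.IsGE Q (e - K) → t.IsLE Q (e + K) →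
      (∀ k : ℕ, k ≤ K → ∃ L : Q ⟶ twist T Q k, IsIso (R.H.map (L⟦e - k⟧'))) → Spl t Q := by
  induction K with
  | zero =>
    intro Q h2 h3 _
    simp only [Nat.cast_zero, sub_zero, add_zero] at h2 h3
    exact Spl.single h3 h2
  | succ K ih =>
    intro Q h2 h3 hL
    obtain ⟨L, hL1⟩ := hL (K + 1) le_rfl
    obtain ⟨b, hb⟩ : ∃ b : ℤ, b = e - (K + 1 : ℕ) := ⟨_, rfl⟩
    obtain ⟨c, hc'⟩ : ∃ c : ℤ, c = e + (K + 1 : ℕ) := ⟨_, rfl⟩
    rw [← hb] at h2 hL1
    rw [← hc'] at h3
    obtain ⟨A, B, ι, ρ, σ, π, hρ, hσ, hιπ, hσρ, hA1, hA2, hB1, hB2, hι, hπ⟩ :=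
      outer_split hc he eT h1 (Nat.succ_pos K) (by rw [hb, hc']; push_cast; ring) h2 h3 L hL1
    have dA : R.Deg A b := TExact.deg' he hA1 hA2
    have dB : R.Deg B c := TExact.deg' he hB1 hB2
    have hid : (𝟙 Q - ρ ≫ ι - π ≫ σ) ≫ (𝟙 Q - ρ ≫ ι - π ≫ σ) = 𝟙 Q - ρ ≫ ι - π ≫ σ := by
      simp only [Preadditive.sub_comp, Preadditive.comp_sub, Category.id_comp, Category.comp_id,
        Category.assoc, reassoc_of% hρ, reassoc_of% hσ, reassoc_of% hιπ, reassoc_of% hσρ,
        zero_comp, comp_zero]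
      abel
    obtain ⟨M, i, q, hiq, hqi⟩ := IsIdempotentComplete.idempotents_split Q _ hid
    have hi1 : i ≫ π = 0 := by
      have h4 : i = i ≫ (𝟙 Q - ρ ≫ ι - π ≫ σ) := by rw [← hqi, reassoc_of% hiq]
      rw [h4]
      simp only [Preadditive.sub_comp, Preadditive.comp_sub, Category.id_comp, Category.comp_id,
        Category.assoc, hσ, hιπ, comp_zero]
      abel
    have hi2 : ι ≫ q = 0 := by
      have h4 : q = (𝟙 Q - ρ ≫ ι - π ≫ σ) ≫ q := by
        rw [← hqi, Category.assoc, hiq, Category.comp_id]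
      rw [h4, ← Category.assoc]
      have h5 : ι ≫ (𝟙 Q - ρ ≫ ι - π ≫ σ) = 0 := by
        simp only [Preadditive.comp_sub, Category.comp_id, reassoc_of% hρ, reassoc_of% hιπ,
          zero_comp]
        abel
      rw [h5, zero_comp]
    have hsum : ρ ≫ ι + π ≫ σ + q ≫ i = 𝟙 Q := by
      rw [hqi]
      abel
    have zM : ∀ n : ℤ, IsZero (R.H.obj (Q⟦n⟧)) → IsZero (R.H.obj (M⟦n⟧)) := by
      intro n hn
      rw [IsZero.iff_id_eq_zero]
      have h4 : R.H.map (i⟦n⟧') ≫ R.H.map (q⟦n⟧') = 𝟙 _ := by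
        rw [← Functor.map_comp, ← Functor.map_comp, hiq, CategoryTheory.Functor.map_id,
          CategoryTheory.Functor.map_id]
      rw [← h4, hn.eq_of_tgt (R.H.map (i⟦n⟧')) 0, zero_comp]
    have hM1 : t.IsLE M (e + K) := by
      refine isLE_of hc he fun n hn => ?_
      by_cases hn1 : n = c
      · rw [hn1]
        have h5 : R.H.map (i⟦c⟧') = 0 := by
          rw [← cancel_mono (R.H.map (π⟦c⟧')), ← Functor.map_comp, ← Functor.map_comp, hi1,
            Functor.map_zero, Functor.map_zero, zero_comp]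
        rw [IsZero.iff_id_eq_zero, ← CategoryTheory.Functor.map_id,
          ← CategoryTheory.Functor.map_id, ← hiq, Functor.map_comp, Functor.map_comp, h5,
          zero_comp]
      · exact zM n (he.isLE h3 _ (by omega))
    have hM2 : t.IsGE M (e - K) := by
      refine isGE_of hc he fun n hn => ?_
      by_cases hn1 : n = b
      · rw [hn1]
        have h5 : R.H.map (q⟦b⟧') = 0 := by
          rw [← cancel_epi (R.H.map (ι⟦b⟧')), ← Functor.map_comp, ← Functor.map_comp, hi2,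
            Functor.map_zero, Functor.map_zero, comp_zero]
        rw [IsZero.iff_id_eq_zero, ← CategoryTheory.Functor.map_id,
          ← CategoryTheory.Functor.map_id, ← hiq, Functor.map_comp, Functor.map_comp, h5,
          comp_zero]
      · exact zM n (he.isGE h2 _ (by omega))
    have hSM : Spl t M := by
      refine ih M hM2 hM1 fun k hk => ?_
      obtain ⟨L', hL'⟩ := hL k (by omega)
      refine ⟨i ≫ L' ≫ twm T q k, ?_⟩
      have j1 : IsIso (R.H.map (i⟦e - k⟧')) := by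
        refine ⟨R.H.map (q⟦e - k⟧'), ?_, ?_⟩
        · rw [← Functor.map_comp, ← Functor.map_comp, hiq, CategoryTheory.Functor.map_id,
            CategoryTheory.Functor.map_id]
        · have z1 : R.H.map (ρ⟦e - k⟧') = 0 := (dA _ (by omega)).eq_of_tgt _ _
          have z2 : R.H.map (π⟦e - k⟧') = 0 := (dB _ (by omega)).eq_of_tgt _ _
          rw [← Functor.map_comp, ← Functor.map_comp, show q ≫ i = 𝟙 Q - ρ ≫ ι - π ≫ σ from hqi]
          simp only [Functor.map_sub, Functor.map_comp, z1, z2, zero_comp,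
            CategoryTheory.Functor.map_id, sub_zero]
      have j2 : IsIso (R.H.map ((twm T q k)⟦e - k⟧')) := by
        refine ⟨R.H.map ((twm T i k)⟦e - k⟧'), ?_, ?_⟩
        · have z1 : R.H.map ((twm T ρ k)⟦e - k⟧') = 0 :=
            (twist_isZero eT h1 (m := e + k) (by ring) (dA _ (by omega))).eq_of_tgt _ _
          have z2 : R.H.map ((twm T π k)⟦e - k⟧') = 0 :=
            (twist_isZero eT h1 (m := e + k) (by ring) (dB _ (by omega))).eq_of_tgt _ _
          have h4 : twm T ρ k ≫ twm T ι k + twm T π k ≫ twm T σ k + twm T q k ≫ twm T i k =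
              𝟙 _ := by
            rw [← twm_comp, ← twm_comp, ← twm_comp, ← twm_add, ← twm_add, hsum, twm_id]
          have h5 := congrArg (fun m => R.H.map (m⟦e - k⟧')) h4
          simp only [Functor.map_add, Functor.map_comp, z1, z2, zero_comp, zero_add,
            CategoryTheory.Functor.map_id] at h5
          exact h5
        · rw [← Functor.map_comp, ← Functor.map_comp, ← twm_comp, hiq, twm_id,
            CategoryTheory.Functor.map_id, CategoryTheory.Functor.map_id]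
      rw [Functor.map_comp, Functor.map_comp, Functor.map_comp, Functor.map_comp]
      infer_instance
    -- `Q` is the direct sum of `A`, `B` and `M`
    have d1 : Deco ((biprod.inl : A ⟶ A ⊞ B)) biprod.fst (biprod.inr : B ⟶ A ⊞ B) biprod.snd :=
      deco_biprod A B
    have s1 : Spl t (A ⊞ B) := Spl.deco d1 (Spl.single hA1 hA2) (Spl.single hB1 hB2)
    have hσq : σ ≫ q = 0 := by
      have h4 : q = (𝟙 Q - ρ ≫ ι - π ≫ σ) ≫ q := by
        rw [← hqi, Category.assoc, hiq, Category.comp_id]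
      rw [h4, ← Category.assoc]
      have h5 : σ ≫ (𝟙 Q - ρ ≫ ι - π ≫ σ) = 0 := by
        simp only [Preadditive.comp_sub, Category.comp_id, reassoc_of% hσ, reassoc_of% hσρ,
          zero_comp]
        abel
      rw [h5, zero_comp]
    have d2 : Deco (biprod.desc ι σ) (biprod.lift ρ π) i q := by
      refine ⟨?_, hiq, ?_⟩
      · apply biprod.hom_ext'
        · apply biprod.hom_ext
          · simp [hρ]
          · simp [hιπ]
        · apply biprod.hom_ext
          · simp [hσρ]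
          · simp [hσ]
      · rw [biprod.lift_desc, hsum]
    exact Spl.deco d2 s1 hSM

end

end Pool.Agent.Helper812_AF
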