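import Pool.Agent.Helper812_AF.Build
import Pool.Agent.Helper812_AF.Split
import Pool.Agent.Helper812_FF.Fwd

/-!
# A motivic t-structure implies the conjectures on Chow motives
-/

set_option autoImplicit false
set_option linter.unusedSectionVars false
set_option linter.unusedSimpArgs false
set_option backward.isDefEq.respectTransparency false
set_option backward.defeqAttrib.useBackward true

open CategoryTheory Limits MonoidalCategory Pretriangulated Triangulated ZeroObject

namespace Pool.Agent.Helper812_AF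

open Pool.Agent.Y116.MT Pool.Agent.V1178.MT Pool.Agent.Helper812_LT Pool.Agent.Helper812_MT
open Pool.Agent.Helper812_FF

universe v u w

section

variable {C : Type u} [Category.{v} C] [Preadditive C] [HasZeroObject C] [HasShift C ℤ]
  [∀ n : ℤ, (shiftFunctor C n).Additive] [Pretriangulated C] [IsTriangulated C]
  {t : TStructure C}

/-- An object with split truncations is the direct sum of its cohomology objects. -/
theorem sumOf_of_spl {P : ObjectProperty C}
    (hP : ∀ (X Y : C) (i : X ⟶ Y) (r : Y ⟶ X), i ≫ r = 𝟙 X → P Y → P X) (k : ℕ) :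
    ∀ (a : ℤ) (X : C), P X → Spl t X → t.IsGE X a → t.IsLE X (a + k) →
      IsSumOf (fun Z => P Z ∧ ∃ n : ℤ, t.IsLE Z n ∧ t.IsGE Z n) X := by
  induction k with
  | zero =>
    intro a X h1 _ h3 h4
    simp only [Nat.cast_zero, add_zero] at h4
    exact .base X ⟨h1, a, h4, h3⟩
  | succ k ih =>
    intro a X h1 h2 h3 h4
    obtain ⟨ρ, hρ⟩ := h2 (a + 1)
    have hT := t.triangleLTGE_distinguished (a + 1) X
    have hT' : Triangle.mk ((t.truncLTι (a + 1)).app X) ((t.triangleLTGE (a + 1)).obj X).mor₂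
      ((t.triangleLTGE (a + 1)).obj X).mor₃ ∈ distTriang C := hT
    have hδ : ((t.triangleLTGE (a + 1)).obj X).mor₃ = 0 := by
      have h5 : ((t.truncLTι (a + 1)).app X)⟦(1 : ℤ)⟧' ≫ ρ⟦(1 : ℤ)⟧' = 𝟙 _ := by
        rw [← Functor.map_comp, hρ, CategoryTheory.Functor.map_id]
      have h6 := comp31 hT'
      calc _ = ((t.triangleLTGE (a + 1)).obj X).mor₃ ≫
              ((t.truncLTι (a + 1)).app X)⟦(1 : ℤ)⟧' ≫ ρ⟦(1 : ℤ)⟧' := by
            rw [h5]; exact (Category.comp_id _).symm
        _ = 0 := by rw [← Category.assoc, h6, zero_comp]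
    obtain ⟨e⟩ := sum_of_zero hT' hδ
    obtain ⟨σ, hσ⟩ := split3' hT' hδ
    refine .sum _ _ _ (.base _ ⟨hP _ _ _ ρ hρ h1, a, inferInstance, inferInstance⟩)
      (ih (a + 1) ((t.truncGE (a + 1)).obj X) (hP _ _ σ _ hσ h1) (h2.retract σ _ hσ)
        inferInstance ?_) ⟨e⟩
    have h5 : t.IsLE X (a + 1 + k) := by
      rwa [show a + 1 + (k : ℤ) = a + ((k + 1 : ℕ) : ℤ) by push_cast; ring]
    infer_instance

end

section

variable {C : Type u} [Category.{v} C] [Preadditive C] [HasZeroObject C] [HasShift C ℤ]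
  [∀ n : ℤ, (shiftFunctor C n).Additive] [Pretriangulated C] [MonoidalCategory C]
  [SymmetricCategory C] [TensorTriangulated C]

lemma IsSumOf.mono {A B : ObjectProperty C} (h : ∀ X, A X → B X) {X : C} (hX : IsSumOf A X) :
    IsSumOf B X := by
  induction hX with
  | base X hX => exact .base X (h X hX)
  | sum X Y Z _ _ e h1 h2 => exact .sum X Y Z h1 h2 e

end

section

variable {C : Type u} [Category.{v} C] [Preadditive C] [Linear ℚ C] [HasZeroObject C]
  [HasShift C ℤ] [∀ n : ℤ, (shiftFunctor C n).Additive] [Pretriangulated C] [MonoidalCategory C]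
  [SymmetricCategory C] [TensorTriangulated C] [MonoidalPreadditive C] [RightRigidCategory C]
  [IsTriangulated C] [IsIdempotentComplete C] {Λ : Type*} {E : Λ → Type w} [∀ l, Field (E l)]
  {R : ∀ l, Realisation C (E l)} {P : ObjectProperty C} {T : C} {t : TStructure C}

theorem kunneth_of_motivic (hq : ∀ e : 𝟙_ C ⟶ 𝟙_ C, ∃ a : ℚ, e = a • 𝟙 _)
    (hP : ChowMotives P) {l : Λ} (hL : HardLefschetzFor P T (R l)) (h : IsMotivic t R) :
    KunnethDecompositions P R := by
  intro X hX
  have hid := hid_of_hq (R l) hq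
  have he : ∀ l, TExact t (R l) := fun l => ⟨h.exact_le l, h.exact_ge l⟩
  have hc : Conservative (R l) := conservative_of_motivic hid h l
  obtain ⟨T', ⟨eT⟩⟩ := hL.invertible
  obtain ⟨Q, i, r, hir, hQ, e, hLe⟩ := hL.lefschetz X hX
  obtain ⟨N, hN1, hN2⟩ := bounded_of hc (he l) Q
  have a1 := le_abs_self e
  have a2 := neg_le_abs e
  have hs : Spl t Q := spl_of_lefschetz hc (he l) eT hL.degree e (N + e.natAbs) Q
    (t.isGE_of_ge Q _ (-N) (by push_cast; omega)) (t.isLE_of_le Q N _ (by push_cast; omega))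
    fun k _ => hLe k
  have hsX : Spl t X := hs.retract i r hir
  obtain ⟨M, hM1, hM2⟩ := bounded_of hc (he l) X
  refine (sumOf_of_spl hP.summand (2 * M) (-M) X hX hsX hM2
    (t.isLE_of_le X M _ (by push_cast; omega))).mono ?_
  rintro Z ⟨hZ, n, h1, h2⟩
  exact ⟨hZ, n, fun l' i hi => TExact.deg' (he l') h1 h2 i (by simpa using hi)⟩

variable [Nonempty Λ]

theorem numericalZero_of_motivic (hq : ∀ e : 𝟙_ C ⟶ 𝟙_ C, ∃ a : ℚ, e = a • 𝟙 _)
    (hP : ChowMotives P) (h : IsMotivic t R) : NumericalInDegreeZero P R := by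
  intro X hX hX0 s hs
  have l : Λ := Classical.arbitrary Λ
  have hid := hid_of_hq (R l) hq
  have ht : TensorCompat t := ⟨h.tensor_le, h.tensor_ge⟩
  have hu : Hrt t (𝟙_ C) := unit_hrt ht h.nondeg_le h.nondeg_ge
  have he : TExact t (R l) := ⟨h.exact_le l, h.exact_ge l⟩
  have hc : Conservative (R l) := conservative_of_motivic hid h l
  have hH : Hrt t X := ⟨isLE_of hc he fun i hi => hX0 l i (by
      simp only [Set.mem_singleton_iff]
      omega), isGE_of hc he fun i hi => hX0 l i (by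
      simp only [Set.mem_singleton_iff]
      omega)⟩
  exact heart_pairing ht he hu hid hH P hP.unit (fun Y hY => hP.tensor _ _ hY hX)
    (fun Y hY m hm f => zero_of_unit' m (hP.orthogonal _ (hP.dual _ hY) m hm) f) s hs

theorem vanishing_of_motivic (hq : ∀ e : 𝟙_ C ⟶ 𝟙_ C, ∃ a : ℚ, e = a • 𝟙 _)
    (hP : ChowMotives P) (h : IsMotivic t R) : VanishingConjectures P R := by
  intro X hX b n hXb hnb hnz f
  have l : Λ := Classical.arbitrary Λ
  have hid := hid_of_hq (R l) hq
  have ht : TensorCompat t := ⟨h.tensor_le, h.tensor_ge⟩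
  have hu : Hrt t (𝟙_ C) := unit_hrt ht h.nondeg_le h.nondeg_ge
  have he : TExact t (R l) := ⟨h.exact_le l, h.exact_ge l⟩
  have hc : Conservative (R l) := conservative_of_motivic hid h l
  have hle : t.IsLE X b := isLE_of hc he fun i hi => hXb l i (by
      simp only [Set.mem_singleton_iff]
      omega)
  have hge : t.IsGE X b := isGE_of hc he fun i hi => hXb l i (by
      simp only [Set.mem_singleton_iff]
      omega)
  have hu0 : t.IsLE (𝟙_ C) 0 := hu.1
  by_cases h1 : n < b
  · have h2 : t.IsGE (X⟦n⟧) (b - n) := t.isGE_shift X b n (b - n) (by omega)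
    exact t.zero_of_isLE_of_isGE f 0 (b - n) (by omega) hu0 h2
  · obtain rfl : n = b := by omega
    by_cases h2 : 0 < n
    · exact hP.orthogonal X hX n h2 f
    · have h3 : n < 0 := by omega
      by_contra hf
      have hH : Hrt t (X⟦n⟧) := ⟨t.isLE_shift X n n 0, t.isGE_shift X n n 0⟩
      have h0 : ∀ Y, P Y → ∀ m : ℤ, 0 < m → ∀ g : Y ⟶ (𝟙_ C)⟦m⟧, g = 0 := fun Y hY m hm g =>
        zero_of_unit' m (hP.orthogonal _ (hP.dual _ hY) m hm) g
      have h0' : ∀ Y, P Y → ∀ j : ℤ, j ≤ 0 → ∀ m : ℤ, j < m → ∀ g : Y⟦j⟧ ⟶ (𝟙_ C)⟦m⟧, g = 0 := by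
        intro Y hY j hj m hm g
        obtain ⟨g', hg'⟩ := (shiftFunctor C j).map_surjective
          (g ≫ ((shiftFunctorAdd' C (m - j) j m (by ring)).app (𝟙_ C)).hom)
        have h4 : g' = 0 := h0 Y hY (m - j) (by omega) g'
        rw [h4, Functor.map_zero] at hg'
        rw [← cancel_mono ((shiftFunctorAdd' C (m - j) j m (by ring)).app (𝟙_ C)).hom, zero_comp]
        exact hg'.symm
      obtain ⟨r, hr⟩ := heart_pairing ht he hu hid hH
        (fun Y => ∃ X₀, P X₀ ∧ ∃ j : ℤ, j ≤ 0 ∧ Nonempty (Y ≅ X₀⟦j⟧))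
        ⟨𝟙_ C, hP.unit, 0, le_rfl, ⟨((shiftFunctorZero C ℤ).app _).symm⟩⟩
        (fun Y ⟨X₀, hX₀, j, hj, ⟨e⟩⟩ => ⟨X₀ ⊗ X, hP.tensor _ _ hX₀ hX, j + n, by omega,
          ⟨whiskerRightIso e _ ≪≫ lrShift X₀ X j n⟩⟩)
        (fun Y ⟨X₀, hX₀, j, hj, ⟨e⟩⟩ m hm g => by
          have h4 := h0' X₀ hX₀ j hj m (by omega) (e.inv ≫ g)
          rw [← cancel_epi e.inv, h4, comp_zero]) f hf
      apply hr
      have h4 : r = 0 := by
        rw [← cancel_mono ((shiftFunctorZero C ℤ).inv.app (𝟙_ C)), zero_comp]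
        exact h0' X hX n (by omega) 0 (by omega) _
      rw [h4, comp_zero]

end

end Pool.Agent.Helper812_AF
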