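import Pool.Agent.Helper812_AF.Defs
import Pool.Agent.Helper812_FF.Num

/-!
# Morphisms between Chow motives in single degrees
-/

set_option autoImplicit false
set_option linter.unusedSectionVars false
set_option linter.unusedSimpArgs false
set_option backward.isDefEq.respectTransparency false
set_option backward.defeqAttrib.useBackward true

open CategoryTheory Limits MonoidalCategory Pretriangulated Triangulated ZeroObject

namespace Pool.Agent.Helper812_AF

open Pool.Agent.Y116.MT Pool.Agent.V1178.MT Pool.Agent.Helper812_LT Pool.Agent.Helper812_MT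
open Pool.Agent.Helper812_FF
open Functor.LaxMonoidal

universe v u w

section

variable {C : Type u} [Category.{v} C] [Preadditive C] [HasZeroObject C]
  [HasShift C ℤ] [∀ n : ℤ, (shiftFunctor C n).Additive] [Pretriangulated C] [MonoidalCategory C]
  [SymmetricCategory C] [TensorTriangulated C] [MonoidalPreadditive C] [RightRigidCategory C]
  {Λ : Type*} {E : Λ → Type w} [∀ l, Field (E l)]
  {R : ∀ l, Realisation C (E l)} {P : ObjectProperty C}

lemma InDegrees.tensor {X Y : C} {a b : ℤ} (hX : InDegrees R {a} X) (hY : InDegrees R {b} Y) :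
    InDegrees R {a + b} (X ⊗ Y) := by
  intro l i hi
  exact Realisation.Deg.tensor (R := R l) (fun j hj => hX l j (by simpa using hj))
    (fun j hj => hY l j (by simpa using hj)) i (by simpa using hi)

/-- A morphism with zero realisation, tensored with an object. -/
lemma map_whisker_shift {E' : Type w} [Field E'] {R' : Realisation C E'} {X X' : C}
    (f : X ⟶ X') (hf : ∀ i : ℤ, R'.H.map (f⟦i⟧') = 0) (Y : C) (m : ℤ) :
    R'.H.map ((f ▷ Y)⟦m⟧') = 0 := by
  have h1 := map_whisker_zero_of f hf (Y⟦m⟧)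
  have h2 := rShift_natural_left f Y m
  have h3 : (f ▷ Y)⟦m⟧' = (rShift X Y m).inv ≫ (f ▷ (Y⟦m⟧)) ≫ (rShift X' Y m).hom := by
    rw [h2, Iso.inv_hom_id_assoc]
  rw [h3, Functor.map_comp, Functor.map_comp, h1, zero_comp, comp_zero]

/-- A direct summand `B` of the dual of `X` in a degree which is not the dual degree. -/
lemma dual_part {X B : C} {w j : ℤ} (hX : InDegrees R {w} X) (hB : InDegrees R {j} B)
    (hj : j + w ≠ 0) (i : B ⟶ (Xᘁ : C)) (r : (Xᘁ : C) ⟶ B) (hir : i ≫ r = 𝟙 B) (l : Λ) (m : ℤ) :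
    IsZero ((R l).H.obj (B⟦m⟧)) := by
  have h1 : ∀ n : ℤ, (R l).H.map (((i ▷ X) ≫ ε_ X (Xᘁ : C))⟦n⟧') = 0 := by
    intro n
    by_cases hn : n = 0
    · have h2 := InDegrees.tensor hB hX l n (by
        simp only [Set.mem_singleton_iff]
        omega)
      exact h2.eq_of_src _ _
    · exact (deg_unit (R := R l) n hn).eq_of_tgt _ _
  have h2 : 𝟙 B = (ρ_ B).inv ≫ (B ◁ η_ X (Xᘁ : C)) ≫ (α_ B X Xᘁ).inv ≫
      (((i ▷ X) ≫ ε_ X (Xᘁ : C)) ▷ (Xᘁ : C)) ≫ (λ_ (Xᘁ : C)).hom ≫ r := by
    have h3 : i = (ρ_ B).inv ≫ (B ◁ η_ X (Xᘁ : C)) ≫ (α_ B X Xᘁ).inv ≫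
      (((i ▷ X) ≫ ε_ X (Xᘁ : C)) ▷ (Xᘁ : C)) ≫ (λ_ (Xᘁ : C)).hom := by
      rw [comp_whiskerRight, Category.assoc, ← associator_inv_naturality_left_assoc,
        whisker_exchange_assoc, ExactPairing.coevaluation_evaluation_assoc]
      simp
    conv_lhs => rw [← hir, h3]
    simp only [Category.assoc]
  have h3 := map_whisker_shift _ h1 (Xᘁ : C) m
  have h4 : (R l).H.map ((𝟙 B)⟦m⟧') = 0 := by
    rw [h2, Functor.map_comp, Functor.map_comp, Functor.map_comp, Functor.map_comp,
      Functor.map_comp, Functor.map_comp, Functor.map_comp, Functor.map_comp, h3, zero_comp,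
      comp_zero, comp_zero, comp_zero]
  rw [CategoryTheory.Functor.map_id, CategoryTheory.Functor.map_id] at h4
  exact (IsZero.iff_id_eq_zero _).2 h4

/-- The cohomology of the dual of a Chow motive in degree `w` is in degree `-w`. -/
theorem dual_deg (hP : ChowMotives P) (hK : KunnethDecompositions P R) {X : C} (hX : P X)
    {w : ℤ} (hw : InDegrees R {w} X) : InDegrees R {-w} (Xᘁ : C) := by
  have key : ∀ Y : C, IsSumOf (fun Z => P Z ∧ ∃ n : ℤ, InDegrees R {n} Z) Y →
      ∀ (i : Y ⟶ (Xᘁ : C)) (r : (Xᘁ : C) ⟶ Y), i ≫ r = 𝟙 Y → InDegrees R {-w} Y := by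
    intro Y hY
    induction hY with
    | base Y hY =>
      intro i r hir
      obtain ⟨-, n, hn⟩ := hY
      by_cases hnw : n + w = 0
      · obtain rfl : n = -w := by omega
        exact hn
      · intro l m _
        exact dual_part hw hn hnw i r hir l m
    | sum X₁ X₂ Y _ _ e h1 h2 =>
      intro i r hir
      obtain ⟨e⟩ := e
      have g1 := h1 (biprod.inl ≫ e.inv ≫ i) (r ≫ e.hom ≫ biprod.fst) (by
        simp only [Category.assoc, reassoc_of% hir, Iso.inv_hom_id_assoc, biprod.inl_fst])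
      have g2 := h2 (biprod.inr ≫ e.inv ≫ i) (r ≫ e.hom ≫ biprod.snd) (by
        simp only [Category.assoc, reassoc_of% hir, Iso.inv_hom_id_assoc, biprod.inr_snd])
      exact InDegrees.iso (InDegrees.ext (binaryBiproductTriangle_distinguished X₁ X₂) g1 g2)
        e.symm
  exact key _ (hK _ (hP.dual _ hX)) (𝟙 _) (𝟙 _) (Category.comp_id _)

/-- The internal morphisms between two Chow motives in single degrees. -/
lemma hom_deg (hP : ChowMotives P) (hK : KunnethDecompositions P R) {X Y : C} (hX : P X)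
    {w v : ℤ} (hw : InDegrees R {w} X) (hv : InDegrees R {v} Y) :
    InDegrees R {v - w} (Y ⊗ (Xᘁ : C)) := InDegrees.tensor hv (dual_deg hP hK hX hw)

/-- Vanishing of morphisms between Chow motives in single degrees. -/
lemma hom_P (hP : ChowMotives P) (hK : KunnethDecompositions P R)
    (hV : VanishingConjectures P R) {X Y : C} (hX : P X) (hY : P Y)
    {w v : ℤ} (hw : InDegrees R {w} X) (hv : InDegrees R {v} Y) {n : ℤ}
    (hn : 0 < n ∨ (n ≤ v - w ∧ (n ≠ 0 ∨ v ≠ w))) (f : X ⟶ Y⟦n⟧) : f = 0 := by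
  refine zero_of_unit n (fun g => ?_) f
  rcases hn with hn | ⟨h1, h2⟩
  · exact hP.orthogonal _ (hP.tensor _ _ hY (hP.dual _ hX)) n hn g
  · exact hV _ (hP.tensor _ _ hY (hP.dual _ hX)) (v - w) n (hom_deg hP hK hX hw hv) h1
      (by omega) g

variable [Linear ℚ C]

/-- The realisations are faithful on Chow motives in the same degree. -/
lemma faithful_P (hq : ∀ e : 𝟙_ C ⟶ 𝟙_ C, ∃ a : ℚ, e = a • 𝟙 _) (hP : ChowMotives P)
    (hK : KunnethDecompositions P R) (hN : NumericalInDegreeZero P R) {X Y : C} (hX : P X)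
    (hY : P Y) {w : ℤ} (hw : InDegrees R {w} X) (hv : InDegrees R {w} Y) (l : Λ) (f : X ⟶ Y)
    (hf : ∀ i : ℤ, (R l).H.map (f⟦i⟧') = 0) : f = 0 := by
  apply eq_zero_of_nm
  by_contra h
  have h1 := hom_deg hP hK hX hw hv
  rw [sub_self] at h1
  obtain ⟨r, hr⟩ := hN _ (hP.tensor _ _ hY (hP.dual _ hX)) h1 (nm f) h
  refine H_unit_ne (R l) hq _ hr ?_
  rw [Functor.map_comp, nm, Functor.map_comp, map_whisker_zero_of f hf, comp_zero, zero_comp]

/-- The morphisms between Chow motives in the same degree are regular. -/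
lemma reg_same (hq : ∀ e : 𝟙_ C ⟶ 𝟙_ C, ∃ a : ℚ, e = a • 𝟙 _) (hP : ChowMotives P)
    (hK : KunnethDecompositions P R) (hN : NumericalInDegreeZero P R) (l : Λ) {X Y : C}
    (hX : P X) (hY : P Y) {w : ℤ} (hw : InDegrees R {w} X) (hv : InDegrees R {w} Y) :
    Reg X Y := by
  apply reg_of_end
  apply Reg.of_shift w
  have hQ : InDegrees R {w} (X ⊞ Y) :=
    InDegrees.ext (binaryBiproductTriangle_distinguished X Y) hw hv
  have hQ' : (R l).Deg (X ⊞ Y) w := fun i hi => hQ l i (by simpa using hi)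
  refine reg_end (R l) hq (hQ'.shift w 0 (by ring)) (fun s hs => ?_)
  have h1 := hom_deg hP hK (hP.sum _ _ hX hY) hQ hQ
  rw [sub_self] at h1
  obtain ⟨r, hr⟩ := hN _ (hP.tensor _ _ (hP.sum _ _ hX hY) (hP.dual _ (hP.sum _ _ hX hY))) h1
    (s ≫ (endShift (X ⊞ Y) w).hom) (fun h => hs (by
      rw [← cancel_mono (endShift (X ⊞ Y) w).hom, h, zero_comp]))
  exact ⟨(endShift (X ⊞ Y) w).hom ≫ r, by rwa [← Category.assoc]⟩

end

end Pool.Agent.Helper812_AF
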