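import Pool.Agent.Helper812_AF.Hom

/-!
# Pure objects of given degree and weight, and their sorted extensions
-/

set_option autoImplicit false
set_option linter.unusedSectionVars false
set_option linter.unusedSimpArgs false
set_option backward.isDefEq.respectTransparency false
set_option backward.defeqAttrib.useBackward true

open CategoryTheory Limits MonoidalCategory Pretriangulated Triangulated ZeroObject ObjectProperty

namespace Pool.Agent.Helper812_AF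

open Pool.Agent.Y116.MT Pool.Agent.V1178.MT Pool.Agent.Helper812_LT Pool.Agent.Helper812_MT
open Pool.Agent.Helper812_FF

universe v u w

section

variable {C : Type u} [Category.{v} C] [Preadditive C] [HasZeroObject C]
  [HasShift C ℤ] [∀ n : ℤ, (shiftFunctor C n).Additive] [Pretriangulated C] [MonoidalCategory C]
  [SymmetricCategory C] [TensorTriangulated C] [MonoidalPreadditive C] [RightRigidCategory C]
  {Λ : Type*} {E : Λ → Type w} [∀ l, Field (E l)]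
  (R : ∀ l, Realisation C (E l)) (P : ObjectProperty C)

/-- The pure objects of degree `a` and weight `w`: the shifts by `w - a` of the Chow motives with
cohomology in degree `w`. -/
def G (a w : ℤ) : ObjectProperty C := fun X =>
  ∃ Z, P Z ∧ InDegrees R {w} Z ∧ Nonempty (X ≅ Z⟦w - a⟧)

instance (a w : ℤ) : (G R P a w).IsClosedUnderIsomorphisms :=
  ⟨fun e ⟨Z, h1, h2, ⟨e'⟩⟩ => ⟨Z, h1, h2, ⟨e.symm ≪≫ e'⟩⟩⟩

variable {R P}

lemma G_inDegrees {a w : ℤ} {X : C} (h : G R P a w X) : InDegrees R {a} X := by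
  obtain ⟨Z, h1, h2, ⟨e⟩⟩ := h
  exact (h2.shift (w - a) fun i hi => by
    simp only [Set.mem_singleton_iff] at hi ⊢
    omega).iso e.symm

lemma G_shift {a w : ℤ} {X : C} (h : G R P a w X) (m : ℤ) : G R P (a - m) w (X⟦m⟧) := by
  obtain ⟨Z, h1, h2, ⟨e⟩⟩ := h
  exact ⟨Z, h1, h2, ⟨(shiftFunctor C m).mapIso e ≪≫
    ((shiftFunctorAdd' C (w - a) m (w - (a - m)) (by ring)).app Z).symm⟩⟩

lemma G_zero (hP : ChowMotives P) (a w : ℤ) (X : C) (hX : IsZero X) : G R P a w X :=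
  ⟨X, hP.summand X (𝟙_ C) 0 0 (hX.eq_of_src _ _) hP.unit, inDegrees_of_isZero hX _,
    ⟨hX.iso (isZero_shift hX _)⟩⟩

lemma G_retract (hP : ChowMotives P) {a w : ℤ} {X Y : C} (i : X ⟶ Y) (r : Y ⟶ X)
    (hir : i ≫ r = 𝟙 X) (h : G R P a w Y) : G R P a w X := by
  obtain ⟨Z, h1, h2, ⟨e⟩⟩ := h
  let k : (X⟦-(w - a)⟧) ⟶ Z := (i ≫ e.hom)⟦-(w - a)⟧' ≫ (shiftShiftNeg Z (w - a)).hom
  let s : Z ⟶ (X⟦-(w - a)⟧) := (shiftShiftNeg Z (w - a)).inv ≫ (e.inv ≫ r)⟦-(w - a)⟧'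
  have hks : k ≫ s = 𝟙 _ := by
    simp only [k, s, Category.assoc, Iso.hom_inv_id_assoc]
    rw [← Functor.map_comp, Category.assoc, Iso.hom_inv_id_assoc, hir,
      CategoryTheory.Functor.map_id]
  refine ⟨X⟦-(w - a)⟧, hP.summand _ _ k s hks h1, InDegrees.retract k s hks h2, ⟨?_⟩⟩
  exact (shiftNegShift X (w - a)).symm

lemma G_sum (hP : ChowMotives P) {a w : ℤ} {X Y Z : C} (hX : G R P a w X) (hY : G R P a w Y)
    (e : Z ≅ X ⊞ Y) : G R P a w Z := by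
  obtain ⟨X', h1, h2, ⟨e1⟩⟩ := hX
  obtain ⟨Y', h3, h4, ⟨e2⟩⟩ := hY
  have d := (deco_biprod X' Y').map (shiftFunctor C (w - a))
  refine ⟨X' ⊞ Y', hP.sum _ _ h1 h3,
    InDegrees.ext (binaryBiproductTriangle_distinguished X' Y') h2 h4,
    ⟨e ≪≫ biprod.mapIso e1 e2 ≪≫ d.iso⟩⟩

/-- Vanishing of the morphisms between pure objects. -/
lemma hom_G (hP : ChowMotives P) (hK : KunnethDecompositions P R)
    (hV : VanishingConjectures P R) {a w b v n : ℤ} {X Y : C} (hX : G R P a w X)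
    (hY : G R P b v Y) (hn : 0 < v - w - (b - a) + n ∨
      (n ≤ b - a ∧ (v - w - (b - a) + n ≠ 0 ∨ v ≠ w))) (f : X ⟶ Y⟦n⟧) : f = 0 := by
  obtain ⟨X', h1, h2, ⟨e1⟩⟩ := hX
  obtain ⟨Y', h3, h4, ⟨e2⟩⟩ := hY
  let e3 : (Y'⟦v - w - (b - a) + n⟧)⟦w - a⟧ ≅ (Y'⟦v - b⟧)⟦n⟧ :=
    ((shiftFunctorAdd' C (v - w - (b - a) + n) (w - a) (v - b + n) (by ring)).app Y').symm ≪≫
      (shiftFunctorAdd' C (v - b) n (v - b + n) rfl).app Y'
  obtain ⟨g, hg⟩ := (shiftFunctor C (w - a)).map_surjective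
    (e1.inv ≫ f ≫ (e2.hom)⟦n⟧' ≫ e3.inv)
  have h5 : g = 0 := hom_P hP hK hV h1 h3 h2 h4 (n := v - w - (b - a) + n) (by omega) g
  rw [h5, Functor.map_zero] at hg
  rw [← cancel_epi e1.inv, ← cancel_mono ((e2.hom)⟦n⟧'), ← cancel_mono e3.inv, comp_zero,
    zero_comp, zero_comp]
  simp only [Category.assoc]
  exact hg.symm

lemma hom_G0 (hP : ChowMotives P) (hK : KunnethDecompositions P R)
    (hV : VanishingConjectures P R) {a w b v : ℤ} {X Y : C} (hX : G R P a w X)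
    (hY : G R P b v Y) (h : a < b ∨ (a = b ∧ w ≠ v)) (f : X ⟶ Y) : f = 0 := by
  rw [← cancel_mono ((shiftFunctorZero C ℤ).inv.app Y), zero_comp]
  exact hom_G hP hK hV hX hY (n := 0) (by omega) _

variable [Linear ℚ C]

lemma reg_G (hq : ∀ e : 𝟙_ C ⟶ 𝟙_ C, ∃ a : ℚ, e = a • 𝟙 _) (hP : ChowMotives P)
    (hK : KunnethDecompositions P R) (hN : NumericalInDegreeZero P R) (l : Λ) {a w : ℤ} {X Y : C}
    (hX : G R P a w X) (hY : G R P a w Y) : Reg X Y := by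
  obtain ⟨X', h1, h2, ⟨e1⟩⟩ := hX
  obtain ⟨Y', h3, h4, ⟨e2⟩⟩ := hY
  exact reg_iso e1 e2 ((reg_same hq hP hK hN l h1 h3 h2 h4).shift _)

lemma faithful_G (hq : ∀ e : 𝟙_ C ⟶ 𝟙_ C, ∃ a : ℚ, e = a • 𝟙 _) (hP : ChowMotives P)
    (hK : KunnethDecompositions P R) (hN : NumericalInDegreeZero P R) (l : Λ) {a w : ℤ} {X Y : C}
    (hX : G R P a w X) (hY : G R P a w Y) (f : X ⟶ Y) (hf : ∀ i : ℤ, (R l).H.map (f⟦i⟧') = 0) :
    f = 0 := by
  obtain ⟨X', h1, h2, ⟨e1⟩⟩ := hX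
  obtain ⟨Y', h3, h4, ⟨e2⟩⟩ := hY
  obtain ⟨g, hg⟩ := (shiftFunctor C (w - a)).map_surjective (e1.inv ≫ f ≫ e2.hom)
  have h5 : g = 0 := by
    refine faithful_P hq hP hK hN h1 h3 h2 h4 l g fun i => ?_
    have h2 : g⟦i⟧' = ((shiftFunctorAdd' C (w - a) (i - (w - a)) i (by ring)).app X').hom ≫
        (g⟦w - a⟧')⟦i - (w - a)⟧' ≫
          ((shiftFunctorAdd' C (w - a) (i - (w - a)) i (by ring)).app Y').inv := by
      rw [← Category.assoc, Iso.eq_comp_inv]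
      exact (shiftFunctorAdd' C (w - a) (i - (w - a)) i (by ring)).hom.naturality g
    rw [h2, hg]
    simp only [Functor.map_comp, hf, zero_comp, comp_zero]
  rw [h5, Functor.map_zero] at hg
  rw [← cancel_mono e2.hom, ← cancel_epi e1.inv, zero_comp, comp_zero, ← hg]

end

section

variable {C : Type u} [Category.{v} C] [Preadditive C] [HasZeroObject C] [HasShift C ℤ]
  [∀ n : ℤ, (shiftFunctor C n).Additive] [Pretriangulated C]

/-- An extension with zero connecting morphism is a direct sum. -/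
lemma sum_of_zero {X Y Z : C} {f : Y ⟶ X} {g : X ⟶ Z} {h : Z ⟶ Y⟦(1 : ℤ)⟧}
    (hT : Triangle.mk f g h ∈ distTriang C) (hh : h = 0) : Nonempty (X ≅ Y ⊞ Z) := by
  obtain ⟨r, hr⟩ := split3 hT hh
  obtain ⟨s, hs⟩ := split3' hT hh
  have h1 : (𝟙 X - r ≫ f - g ≫ s) ≫ g = 0 := by
    rw [Preadditive.sub_comp, Preadditive.sub_comp, Category.id_comp, Category.assoc,
      comp12 hT, comp_zero, Category.assoc, hs, Category.comp_id]
    abel
  obtain ⟨m, hm⟩ := ce2 hT _ h1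
  have h2 : m = - (g ≫ s ≫ r) := by
    have h3 : (𝟙 X - r ≫ f - g ≫ s) ≫ r = m ≫ f ≫ r := by rw [hm, Category.assoc]
    rw [hr, Category.comp_id, Preadditive.sub_comp, Preadditive.sub_comp, Category.id_comp,
      Category.assoc, hr, Category.comp_id, sub_self, zero_sub, Category.assoc] at h3
    exact h3.symm
  let s' : Z ⟶ X := s - s ≫ r ≫ f
  have hs' : s' ≫ g = 𝟙 _ := by
    simp only [s']
    rw [Preadditive.sub_comp, Category.assoc, Category.assoc, comp12 hT, comp_zero, comp_zero,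
      sub_zero, hs]
  have hsum : r ≫ f + g ≫ s' = 𝟙 X := by
    simp only [s']
    rw [h2, Preadditive.neg_comp] at hm
    rw [Preadditive.comp_sub]
    have h4 : 𝟙 X = r ≫ f + g ≫ s - (g ≫ s ≫ r) ≫ f := by
      rw [sub_eq_add_neg, ← hm]
      abel
    conv_rhs => rw [h4]
    simp only [Category.assoc]
    abel
  exact ⟨(Deco.iso (i₁ := f) (r₁ := r) (i₂ := s') (r₂ := g) ⟨hr, hs', hsum⟩).symm⟩

/-- The direct sum, as an extension in the other direction. -/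
lemma ext_swap {P Q : ObjectProperty C} {X Y Z : C} (e : X ≅ Y ⊞ Z) (hY : Q Y) (hZ : P Z) :
    extensionProduct P Q X := by
  refine ⟨Z, Y, biprod.inl ≫ (biprod.braiding Z Y).hom ≫ e.inv,
    e.hom ≫ (biprod.braiding Z Y).inv ≫ biprod.snd, 0, ?_, hZ, hY⟩
  refine isomorphic_distinguished _ (binaryBiproductTriangle_distinguished Z Y) _ ?_
  exact Triangle.isoMk _ _ (Iso.refl _) (e ≪≫ (biprod.braiding Z Y).symm) (Iso.refl _)
    (by simp) (by simp) (by simp)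

/-- The fibre of a regular morphism is a direct sum of a summand of the source and a summand of the
target. -/
lemma fibre_deco [IsIdempotentComplete C] {X Y Z : C} {f : Y ⟶ X} {g : X ⟶ Z}
    {h : Z ⟶ Y⟦(1 : ℤ)⟧} (hT : Triangle.mk f g h ∈ distTriang C) (k : Y⟦(1 : ℤ)⟧ ⟶ Z)
    (hk : h ≫ k ≫ h = h) :
    ∃ (X₁ X₂ : C) (_ : Nonempty (X ≅ X₂ ⊞ X₁)) (a : X₁ ⟶ Z) (b : Z ⟶ X₁) (c : X₂ ⟶ Y)
      (d : Y ⟶ X₂), a ≫ b = 𝟙 _ ∧ c ≫ d = 𝟙 _ := by
  obtain ⟨t, ht⟩ := ce3 hT (𝟙 Z - h ≫ k) (by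
    rw [Preadditive.sub_comp, Category.id_comp, Category.assoc, hk, sub_self])
  have h1 : g ≫ t ≫ g = g := by
    rw [← ht, Preadditive.comp_sub, Category.comp_id, ← Category.assoc g h, comp23 hT, zero_comp,
      sub_zero]
  have hi : (g ≫ t) ≫ (g ≫ t) = g ≫ t := by
    rw [Category.assoc, ← Category.assoc t, ← Category.assoc g (t ≫ g), h1]
  have hi' : (𝟙 X - g ≫ t) ≫ (𝟙 X - g ≫ t) = 𝟙 X - g ≫ t := by
    rw [Preadditive.sub_comp, Category.id_comp, Preadditive.comp_sub, Category.comp_id, hi,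
      sub_self, sub_zero]
  obtain ⟨X₁, i₁, r₁, e₁, e₁'⟩ := IsIdempotentComplete.idempotents_split X _ hi
  obtain ⟨X₂, i₂, r₂, e₂, e₂'⟩ := IsIdempotentComplete.idempotents_split X _ hi'
  have d' : Deco i₂ r₂ i₁ r₁ := ⟨e₂, e₁, by rw [e₁', e₂']; abel⟩
  have h2 : i₁ ≫ g ≫ t = i₁ := by rw [← e₁', ← Category.assoc, e₁, Category.id_comp]
  have h3 : i₂ ≫ g = 0 := by
    have h4 : i₂ = i₂ ≫ (𝟙 X - g ≫ t) := by rw [← e₂', ← Category.assoc, e₂, Category.id_comp]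
    rw [h4, Category.assoc, Preadditive.sub_comp, Category.id_comp, Category.assoc, h1, sub_self,
      comp_zero]
  obtain ⟨j, hj⟩ := ce2 hT i₂ h3
  refine ⟨X₁, X₂, ⟨d'.iso.symm⟩, i₁ ≫ g, t ≫ r₁, j, f ≫ r₂, ?_, ?_⟩
  · rw [Category.assoc, ← Category.assoc g, ← Category.assoc i₁, h2, e₁]
  · rw [← Category.assoc, ← hj, e₂]

end

end Pool.Agent.Helper812_AF
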