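import Pool.Agent.Helper812_AF.Pieces
import Pool.Agent.Helper812_LT.Crit

/-!
# Sorted extensions of pure objects
-/

set_option autoImplicit false
set_option linter.unusedSectionVars false
set_option linter.unusedSimpArgs false
set_option backward.isDefEq.respectTransparency false
set_option backward.defeqAttrib.useBackward true

open CategoryTheory Limits MonoidalCategory Pretriangulated Triangulated ZeroObject ObjectProperty

namespace Pool.Agent.Helper812_AF

open Pool.Agent.Y116.MT Pool.Agent.V1178.MT Pool.Agent.Helper812_LT Pool.Agent.Helper812_MT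
open Pool.Agent.Helper812_FF

universe v u w

section Generic

variable {C : Type u} [Category.{v} C] [Preadditive C] [HasZeroObject C] [HasShift C ℤ]
  [∀ n : ℤ, (shiftFunctor C n).Additive] [Pretriangulated C] {S : ℤ → ObjectProperty C}

lemma hom_ext_left {X Y Z W : C} {f : Y ⟶ X} {g : X ⟶ Z} {h : Z ⟶ Y⟦(1 : ℤ)⟧}
    (hT : Triangle.mk f g h ∈ distTriang C) (h1 : ∀ k : Y ⟶ W, k = 0) (h2 : ∀ k : Z ⟶ W, k = 0)
    (k : X ⟶ W) : k = 0 := by
  obtain ⟨m, hm⟩ := ye2 hT k (h1 _)
  rw [hm, h2 m, comp_zero]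

lemma hom_ext_right {X Y Z W : C} {f : Y ⟶ X} {g : X ⟶ Z} {h : Z ⟶ Y⟦(1 : ℤ)⟧}
    (hT : Triangle.mk f g h ∈ distTriang C) (h1 : ∀ k : W ⟶ Y, k = 0) (h2 : ∀ k : W ⟶ Z, k = 0)
    (k : W ⟶ X) : k = 0 := by
  obtain ⟨m, hm⟩ := ce2 hT k (h2 _)
  rw [hm, h1 m, zero_comp]

lemma hom_srt_left {W : C} (k : ℕ) : ∀ (a : ℤ) (X : C), srt S a k X →
    (∀ (i : ℤ) (Y : C), a ≤ i → i < a + k → S i Y → ∀ f : Y ⟶ W, f = 0) → ∀ f : X ⟶ W, f = 0 := by
  induction k with
  | zero => intro a X hX _ f; exact IsZero.eq_of_src hX _ _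
  | succ k ih =>
    rintro a X ⟨Y, Z, f, g, h, hT, hY, hZ⟩ hh
    exact hom_ext_left hT (hh a Y le_rfl (by push_cast; omega) hY)
      (ih (a + 1) Z hZ fun i V h1 h2 => hh i V (by omega) (by push_cast; omega))

lemma hom_srt_right {W : C} (k : ℕ) : ∀ (a : ℤ) (X : C), srt S a k X →
    (∀ (i : ℤ) (Y : C), a ≤ i → i < a + k → S i Y → ∀ f : W ⟶ Y, f = 0) → ∀ f : W ⟶ X, f = 0 := by
  induction k with
  | zero => intro a X hX _ f; exact IsZero.eq_of_tgt hX _ _
  | succ k ih =>
    rintro a X ⟨Y, Z, f, g, h, hT, hY, hZ⟩ hh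
    exact hom_ext_right hT (hh a Y le_rfl (by push_cast; omega) hY)
      (ih (a + 1) Z hZ fun i V h1 h2 => hh i V (by omega) (by push_cast; omega))

/-- The powers of an endomorphism. -/
def npow {X : C} (f : X ⟶ X) : ℕ → (X ⟶ X)
  | 0 => 𝟙 X
  | n + 1 => f ≫ npow f n

lemma npow_comm {X Y : C} {f : X ⟶ X} {g : Y ⟶ Y} (a : X ⟶ Y) (h : f ≫ a = a ≫ g) (n : ℕ) :
    npow f n ≫ a = a ≫ npow g n := by
  induction n with
  | zero => simp [npow]
  | succ n ih => rw [npow, npow, Category.assoc, ih, ← Category.assoc, h, Category.assoc]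

lemma npow_add {X : C} (f : X ⟶ X) (m n : ℕ) : npow f (m + n) = npow f m ≫ npow f n := by
  induction m with
  | zero => simp [npow]
  | succ m ih => rw [Nat.succ_add, npow, npow, ih, Category.assoc]

lemma npow_idem {X : C} {e : X ⟶ X} (he : e ≫ e = e) (n : ℕ) : e ≫ npow e n = e := by
  induction n with
  | zero => simp [npow]
  | succ n ih => rw [npow, ← Category.assoc, he, ih]

end Generic

section Nilp

variable {C : Type u} [Category.{v} C] [Preadditive C] [HasZeroObject C]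
  [HasShift C ℤ] [∀ n : ℤ, (shiftFunctor C n).Additive] [Pretriangulated C] [MonoidalCategory C]
  [SymmetricCategory C] [TensorTriangulated C] {E : Type w} [Field E] (R : Realisation C E)

/-- Every endomorphism of `X` with zero realisation is nilpotent. -/
def Nilp (X : C) : Prop := ∀ f : X ⟶ X, (∀ i : ℤ, R.H.map (f⟦i⟧') = 0) → ∃ n, npow f n = 0

variable {R}

lemma nilp_zero {X : C} (hX : IsZero X) : Nilp R X := fun _ _ => ⟨0, hX.eq_of_src _ _⟩

lemma nilp_ext {X Y Z : C} {a : Y ⟶ X} {b : X ⟶ Z} {h : Z ⟶ Y⟦(1 : ℤ)⟧}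
    (hT : Triangle.mk a b h ∈ distTriang C) (h0 : ∀ k : Y ⟶ Z, k = 0)
    (hm : ∀ i : ℤ, Mono (R.H.map (a⟦i⟧'))) (he : ∀ i : ℤ, Epi (R.H.map (b⟦i⟧')))
    (hY : Nilp R Y) (hZ : Nilp R Z) : Nilp R X := by
  intro f hf
  obtain ⟨fY, h1⟩ := ce2 hT (a ≫ f) (by rw [Category.assoc]; exact h0 _)
  obtain ⟨fZ, h2⟩ := ye2 hT (f ≫ b) (by rw [← Category.assoc, h1, Category.assoc, comp12 hT,
    comp_zero])
  obtain ⟨m, hm'⟩ := hY fY fun i => by
    have := hm i
    rw [← cancel_mono (R.H.map (a⟦i⟧')), ← Functor.map_comp, ← Functor.map_comp, ← h1,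
      Functor.map_comp, Functor.map_comp, hf, comp_zero, zero_comp]
  obtain ⟨n, hn⟩ := hZ fZ fun i => by
    have := he i
    rw [← cancel_epi (R.H.map (b⟦i⟧')), ← Functor.map_comp, ← Functor.map_comp, ← h2,
      Functor.map_comp, Functor.map_comp, hf, comp_zero, zero_comp]
  have h3 : npow f n ≫ b = 0 := by rw [npow_comm b h2, hn, comp_zero]
  obtain ⟨y, hy⟩ := ce2 hT _ h3
  refine ⟨n + m, ?_⟩
  rw [npow_add, hy, Category.assoc, ← npow_comm a h1.symm, hm', zero_comp, comp_zero]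

/-- An object with zero realisation which is a direct summand of an object all of whose
endomorphisms with zero realisation are nilpotent is zero. -/
lemma isZero_of_nilp {X Y : C} (hY : Nilp R Y) (i : X ⟶ Y) (r : Y ⟶ X) (hir : i ≫ r = 𝟙 X)
    (hX : ∀ n : ℤ, IsZero (R.H.obj (X⟦n⟧))) : IsZero X := by
  obtain ⟨n, hn⟩ := hY (r ≫ i) fun j => by
    rw [Functor.map_comp, Functor.map_comp, (hX j).eq_of_tgt (R.H.map (r⟦j⟧')) 0, zero_comp]
  have h1 : (r ≫ i) ≫ (r ≫ i) = r ≫ i := by
    rw [Category.assoc, ← Category.assoc i r i, hir, Category.id_comp]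
  have h2 : r ≫ i = 0 := by rw [← npow_idem h1 n, hn, comp_zero]
  rw [IsZero.iff_id_eq_zero]
  have h3 : 𝟙 X = i ≫ (r ≫ i) ≫ r := by
    rw [Category.assoc, hir, Category.comp_id, hir]
  rw [h3, h2, zero_comp, comp_zero]

end Nilp

section

variable {C : Type u} [Category.{v} C] [Preadditive C] [Linear ℚ C] [HasZeroObject C]
  [HasShift C ℤ] [∀ n : ℤ, (shiftFunctor C n).Additive] [Pretriangulated C] [MonoidalCategory C]
  [SymmetricCategory C] [TensorTriangulated C] [MonoidalPreadditive C] [RightRigidCategory C]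
  [IsTriangulated C] [IsIdempotentComplete C]
  {Λ : Type*} {E : Λ → Type w} [∀ l, Field (E l)]
  {R : ∀ l, Realisation C (E l)} {P : ObjectProperty C}

variable (R P) in
/-- The extensions of pure objects in degree `a`. -/
def S (a : ℤ) : ObjectProperty C := sorted (G R P a)

variable (R P) in
/-- The pure objects in degree `a`, of any weight. -/
def GG (a : ℤ) : ObjectProperty C := fun X => ∃ w, G R P a w X

instance (a : ℤ) : (S R P a).IsClosedUnderIsomorphisms :=
  ⟨fun e ⟨b, k, h⟩ => ⟨b, k, (srt (G R P a) b k).prop_of_iso e h⟩⟩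

instance (a : ℤ) : (GG R P a).IsClosedUnderIsomorphisms :=
  ⟨fun e ⟨w, h⟩ => ⟨w, (G R P a w).prop_of_iso e h⟩⟩

instance (a : ℤ) : (S R P a).ContainsZero := ⟨0, isZero_zero C, 0, 0, isZero_zero C⟩

lemma S_zero (a : ℤ) (X : C) (hX : IsZero X) : S R P a X := ⟨0, 0, hX⟩

lemma GG_le_S (a : ℤ) : GG R P a ≤ S R P a := by
  rintro X ⟨w, h⟩
  exact ⟨w, 1, X, _, 𝟙 X, 0, 0, contractible_distinguished X, h, isZero_zero C⟩

lemma S_inDegrees (a : ℤ) : S R P a ≤ InDegrees R {a} := by
  rintro X ⟨b, k, hX⟩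
  induction k generalizing b X with
  | zero => exact inDegrees_of_isZero hX _
  | succ k ih =>
    obtain ⟨Y, Z, f, g, h, hT, hY, hZ⟩ := hX
    exact InDegrees.ext hT (G_inDegrees hY) (ih _ _ hZ)

lemma S_shift (a m : ℤ) (X : C) (hX : S R P a X) : S R P (a - m) (X⟦m⟧) := by
  obtain ⟨b, k, hX⟩ := hX
  refine ⟨b, k, ?_⟩
  induction k generalizing b X with
  | zero => exact isZero_shift hX m
  | succ k ih =>
    obtain ⟨Y, Z, f, g, h, hT, hY, hZ⟩ := hX
    exact ⟨_, _, _, _, _, Triangle.shift_distinguished _ hT m, G_shift hY m, ih _ _ hZ⟩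

variable (hP : ChowMotives P) (hK : KunnethDecompositions P R) (hV : VanishingConjectures P R)

include hP hK hV

omit [Linear ℚ C] [IsTriangulated C] [IsIdempotentComplete C] in
lemma G_ext (a w : ℤ) : extensionProduct (G R P a w) (G R P a w) ≤ G R P a w := by
  rintro X ⟨Y, Z, f, g, h, hT, hY, hZ⟩
  obtain ⟨e⟩ := sum_of_zero hT (hom_G hP hK hV hZ hY (n := 1) (by omega) h)
  exact G_sum hP hY hZ e

omit [Linear ℚ C] [IsTriangulated C] [IsIdempotentComplete C] in
lemma G_swap (a p q : ℤ) (hpq : p < q) :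
    extensionProduct (G R P a q) (G R P a p) ≤ extensionProduct (G R P a p) (G R P a q) := by
  rintro X ⟨Y, Z, f, g, h, hT, hY, hZ⟩
  obtain ⟨e⟩ := sum_of_zero hT (hom_G hP hK hV hZ hY (n := 1) (by omega) h)
  exact ext_swap e hY hZ

lemma S_ext (a : ℤ) : extensionProduct (S R P a) (S R P a) ≤ S R P a :=
  sorted_ext (G R P a) (G_zero hP a) (G_ext hP hK hV a) (G_swap hP hK hV a)

/-- Orthogonality. -/
lemma hom_S {a b : ℤ} (hab : a < b) {X Y : C} (hX : S R P a X) (hY : S R P b Y) (f : X ⟶ Y) :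
    f = 0 := by
  obtain ⟨c, k, hX⟩ := hX
  obtain ⟨d, m, hY⟩ := hY
  refine hom_srt_left k c X hX (fun i V _ _ hV' => ?_) f
  exact hom_srt_right m d Y hY (fun j W _ _ hW => hom_G0 hP hK hV hV' hW (Or.inl hab))

variable (hq : ∀ e : 𝟙_ C ⟶ 𝟙_ C, ∃ a : ℚ, e = a • 𝟙 _) (hN : NumericalInDegreeZero P R) (l : Λ)

include hq hN l

omit [IsTriangulated C] in
lemma swapG (p q : ℤ) (hpq : p < q) :
    extensionProduct (GG R P q) (GG R P p) ≤ extensionProduct (GG R P p) (GG R P q) := by
  rintro X ⟨Y, Z, f, g, h, hT, ⟨v, hY⟩, ⟨w, hZ⟩⟩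
  by_cases hc : v = w ∧ q = p + 1
  · obtain ⟨rfl, rfl⟩ := hc
    have hY1 : G R P p v (Y⟦(1 : ℤ)⟧) := by
      have := G_shift hY 1
      rwa [add_sub_cancel_right] at this
    obtain ⟨k, hk⟩ := reg_G hq hP hK hN l hZ hY1 h
    obtain ⟨X₁, X₂, ⟨e⟩, a, b, c, d, hab, hcd⟩ := fibre_deco hT k hk
    exact ext_swap e ⟨v, G_retract hP c d hcd hY⟩ ⟨v, G_retract hP a b hab hZ⟩
  · obtain ⟨e⟩ := sum_of_zero hT (hom_G hP hK hV hZ hY (n := 1) (by omega) h)
    exact ext_swap e ⟨v, hY⟩ ⟨w, hZ⟩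

lemma stepA (p q : ℤ) (hpq : p < q) (m : ℕ) : ∀ b : ℤ,
    extensionProduct (GG R P q) (srt (G R P p) b m) ≤ extensionProduct (S R P p) (GG R P q) := by
  induction m with
  | zero =>
    intro b
    exact ext_zro_right.trans (le_extensionProduct_right (P := S R P p))
  | succ m ih =>
    intro b
    change extensionProduct (GG R P q) (extensionProduct (G R P p b) (srt (G R P p) (b + 1) m)) ≤ _
    rw [← extensionProduct_assoc]
    have h1 : extensionProduct (GG R P q) (G R P p b) ≤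
        extensionProduct (GG R P p) (GG R P q) :=
      (monotone_extensionProduct_right _ (fun X hX => ⟨b, hX⟩)).trans
        (swapG hP hK hV hq hN l p q hpq)
    refine (monotone_extensionProduct_left _ h1).trans ?_
    rw [extensionProduct_assoc]
    refine (monotone_extensionProduct_right _ (ih (b + 1))).trans ?_
    rw [← extensionProduct_assoc]
    refine monotone_extensionProduct_left _ ?_
    exact (monotone_extensionProduct_left _ (GG_le_S p)).trans (S_ext hP hK hV p)

lemma stepA' (p q : ℤ) (hpq : p < q) :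
    extensionProduct (GG R P q) (S R P p) ≤ extensionProduct (S R P p) (GG R P q) := by
  rintro X ⟨Y, Z, f, g, h, hT, hY, ⟨b, m, hZ⟩⟩
  exact stepA hP hK hV hq hN l p q hpq m b X ⟨Y, Z, f, g, h, hT, hY, hZ⟩

lemma stepB (p q : ℤ) (hpq : p < q) (m : ℕ) : ∀ b : ℤ,
    extensionProduct (srt (G R P q) b m) (S R P p) ≤ extensionProduct (S R P p) (S R P q) := by
  induction m with
  | zero =>
    intro b
    exact ext_zro_left.trans (le_extensionProduct_left (Q := S R P q))
  | succ m ih =>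
    intro b
    change extensionProduct (extensionProduct (G R P q b) (srt (G R P q) (b + 1) m)) _ ≤ _
    rw [extensionProduct_assoc]
    refine (monotone_extensionProduct_right _ (ih (b + 1))).trans ?_
    rw [← extensionProduct_assoc]
    have h1 : extensionProduct (G R P q b) (S R P p) ≤ extensionProduct (S R P p) (GG R P q) :=
      (monotone_extensionProduct_left _ (fun X hX => ⟨b, hX⟩)).trans
        (stepA' hP hK hV hq hN l p q hpq)
    refine (monotone_extensionProduct_left _ h1).trans ?_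
    rw [extensionProduct_assoc]
    refine monotone_extensionProduct_right _ ?_
    exact (monotone_extensionProduct_left _ (GG_le_S q)).trans (S_ext hP hK hV q)

/-- The classes of the extensions of pure objects of given degree can be sorted. -/
theorem S_swap (p q : ℤ) (hpq : p < q) :
    extensionProduct (S R P q) (S R P p) ≤ extensionProduct (S R P p) (S R P q) := by
  rintro X ⟨Y, Z, f, g, h, hT, ⟨b, m, hY⟩, hZ⟩
  exact stepB hP hK hV hq hN l p q hpq m b X ⟨Y, Z, f, g, h, hT, hY, hZ⟩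

/-- The endomorphisms with zero realisation are nilpotent. -/
lemma nilp_S (a : ℤ) (X : C) (hX : S R P a X) : Nilp (R l) X := by
  obtain ⟨b, k, hX⟩ := hX
  induction k generalizing b X with
  | zero => exact nilp_zero hX
  | succ k ih =>
    obtain ⟨Y, Z, f, g, h, hT, hY, hZ⟩ := hX
    have hY1 := G_inDegrees hY
    have hZ1 : InDegrees R {a} Z := S_inDegrees a Z ⟨_, _, hZ⟩
    refine nilp_ext hT (hom_srt_right k (b + 1) Z hZ fun i V h1 _ hV' =>
        hom_G0 hP hK hV hY hV' (Or.inr ⟨rfl, by omega⟩)) (fun i => ?_) (fun i => ?_)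
        (fun φ hφ => ⟨1, ?_⟩) (ih _ _ hZ)
    · by_cases hi : i = a
      · exact hmono1 (R l).H hT i (hZ1 l _ (by simp only [Set.mem_singleton_iff]; omega))
      · exact ⟨fun u v _ => (hY1 l i (by simpa using hi)).eq_of_tgt _ _⟩
    · by_cases hi : i = a
      · exact hepi2 (R l).H hT i (hY1 l _ (by simp only [Set.mem_singleton_iff]; omega))
      · exact ⟨fun u v _ => (hZ1 l i (by simpa using hi)).eq_of_src _ _⟩
    · rw [npow, npow, Category.comp_id]
      exact faithful_G hq hP hK hN l hY hY φ hφ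

end

end Pool.Agent.Helper812_AF
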