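import Pool.Agent.Helper812_FF.Num
import Pool.Agent.Helper812_MT.Prime
import Pool.Agent.Helper812_AF.Defs

/-!
# Twists by an invertible object
-/

set_option autoImplicit false
set_option linter.unusedSectionVars false
set_option linter.unusedSimpArgs false
set_option backward.isDefEq.respectTransparency false
set_option backward.defeqAttrib.useBackward true

open CategoryTheory Limits MonoidalCategory Pretriangulated Triangulated

namespace Pool.Agent.Helper812_AF

open Pool.Agent.Y116.MT Pool.Agent.V1178.MT Pool.Agent.Helper812_LT Pool.Agent.Helper812_MT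
open Pool.Agent.Helper812_FF

universe v u w

section

variable {C : Type u} [Category.{v} C] [MonoidalCategory C] [SymmetricCategory C]

/-- Tensoring with an invertible object is an equivalence. -/
noncomputable def tensorEquiv {L L' : C} (e : L ⊗ L' ≅ 𝟙_ C) : C ≌ C :=
  CategoryTheory.Equivalence.mk (tensorRight L) (tensorRight L')
    (NatIso.ofComponents (fun X => α_ X L L' ≪≫ whiskerLeftIso X e ≪≫ ρ_ X) (by
      intro X Y f
      simp only [Functor.comp_map, Iso.trans_hom, whiskerLeftIso_hom,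
        Functor.id_map, Category.assoc]
      change (f ▷ _) ▷ _ ≫ _ = _
      rw [associator_naturality_left_assoc, ← whisker_exchange_assoc]
      exact congrArg (fun k => (α_ X L L').hom ≫ X ◁ e.hom ≫ k)
        (rightUnitor_naturality f)) : tensorRight L ⋙ tensorRight L' ≅ 𝟭 C).symm
    (NatIso.ofComponents (fun X => α_ X L' L ≪≫ whiskerLeftIso X (β_ L' L ≪≫ e) ≪≫ ρ_ X) (by
      intro X Y f
      simp only [Functor.comp_map, Iso.trans_hom, whiskerLeftIso_hom,
        Functor.id_map, Category.assoc]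
      change (f ▷ _) ▷ _ ≫ _ = _
      rw [associator_naturality_left_assoc, ← whisker_exchange_assoc]
      exact congrArg (fun k => (α_ X L' L).hom ≫ X ◁ ((β_ L' L).hom ≫ e.hom) ≫ k)
        (rightUnitor_naturality f)))

lemma whisker_full {L L' : C} (e : L ⊗ L' ≅ 𝟙_ C) {X Y : C} (f : X ⊗ L ⟶ Y ⊗ L) :
    ∃ g : X ⟶ Y, g ▷ L = f := (tensorEquiv e).functor.map_surjective f

lemma whisker_faithful {L L' : C} (e : L ⊗ L' ≅ 𝟙_ C) {X Y : C} {g g' : X ⟶ Y}
    (h : g ▷ L = g' ▷ L) : g = g' := (tensorEquiv e).functor.map_injective h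

/-- The twist of a morphism. -/
def twm (T : C) {X Y : C} (f : X ⟶ Y) : ∀ k : ℕ, twist T X k ⟶ twist T Y k
  | 0 => f
  | k + 1 => twm T f k ▷ T

lemma twm_id (T X : C) (k : ℕ) : twm T (𝟙 X) k = 𝟙 _ := by
  induction k with
  | zero => rfl
  | succ k ih => rw [twm, ih]; exact id_whiskerRight _ _

lemma twm_comp (T : C) {X Y Z : C} (f : X ⟶ Y) (g : Y ⟶ Z) (k : ℕ) :
    twm T (f ≫ g) k = twm T f k ≫ twm T g k := by
  induction k with
  | zero => rfl
  | succ k ih => rw [twm, ih]; exact comp_whiskerRight _ _ _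

lemma twm_full {T T' : C} (e : T ⊗ T' ≅ 𝟙_ C) {X Y : C} (k : ℕ) :
    ∀ f : twist T X k ⟶ twist T Y k, ∃ g : X ⟶ Y, twm T g k = f := by
  induction k with
  | zero => exact fun f => ⟨f, rfl⟩
  | succ k ih =>
    intro f
    obtain ⟨g, hg⟩ := whisker_full e (X := twist T X k) (Y := twist T Y k) f
    obtain ⟨g', rfl⟩ := ih g
    exact ⟨g', hg⟩

lemma twm_faithful {T T' : C} (e : T ⊗ T' ≅ 𝟙_ C) {X Y : C} (k : ℕ) :
    ∀ f g : X ⟶ Y, twm T f k = twm T g k → f = g := by
  induction k with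
  | zero => exact fun f g h => h
  | succ k ih =>
    intro f g h
    exact ih f g (whisker_faithful e h)

end

section

variable {C : Type u} [Category.{v} C] [Preadditive C] [MonoidalCategory C] [SymmetricCategory C]
  [MonoidalPreadditive C]

lemma twm_add (T : C) {X Y : C} (f g : X ⟶ Y) (k : ℕ) :
    twm T (f + g) k = twm T f k + twm T g k := by
  induction k with
  | zero => rfl
  | succ k ih => rw [twm, ih]; exact MonoidalPreadditive.add_whiskerRight _ _

lemma twm_zero (T X Y : C) (k : ℕ) : twm T (0 : X ⟶ Y) k = 0 := by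
  induction k with
  | zero => rfl
  | succ k ih => rw [twm, ih]; exact MonoidalPreadditive.zero_whiskerRight

end

section

variable {C : Type u} [Category.{v} C] [Preadditive C] [HasZeroObject C] [HasShift C ℤ]
  [∀ n : ℤ, (shiftFunctor C n).Additive] [Pretriangulated C] [MonoidalCategory C]
  [SymmetricCategory C] [TensorTriangulated C] [IsTriangulated C] [MonoidalPreadditive C]
  [RightRigidCategory C]
  {E : Type w} [Field E] {R : Realisation C E} {t : TStructure C}

lemma tensor_dist_right (W : C) {X Y Z : C} {f : X ⟶ Y} {g : Y ⟶ Z} {h : Z ⟶ X⟦(1 : ℤ)⟧}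
    (hT : Triangle.mk f g h ∈ distTriang C) :
    ∃ h' : Z ⊗ W ⟶ (X ⊗ W)⟦(1 : ℤ)⟧, Triangle.mk (f ▷ W) (g ▷ W) h' ∈ distTriang C := by
  refine ⟨h ▷ W ≫ (lShift X W 1).hom, ?_⟩
  refine isomorphic_distinguished _ (tensor_dist W hT) _ ?_
  refine Triangle.isoMk _ _ (β_ X W) (β_ Y W) (β_ Z W) ?_ ?_ ?_
  · simp
  · simp
  · simp only [Triangle.mk_mor₃, lShift, Iso.trans_hom, Functor.mapIso_hom, Category.assoc]
    rw [← Functor.map_comp, SymmetricCategory.symmetry, CategoryTheory.Functor.map_id]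
    simp

lemma twm_dist (T : C) {X Y Z : C} {f : X ⟶ Y} {g : Y ⟶ Z} {h : Z ⟶ X⟦(1 : ℤ)⟧}
    (hT : Triangle.mk f g h ∈ distTriang C) (k : ℕ) :
    ∃ h' : twist T Z k ⟶ (twist T X k)⟦(1 : ℤ)⟧,
      Triangle.mk (twm T f k) (twm T g k) h' ∈ distTriang C := by
  induction k with
  | zero => exact ⟨h, hT⟩
  | succ k ih =>
    obtain ⟨h', hT'⟩ := ih
    exact tensor_dist_right T hT'

lemma twist_isZero {T T' : C} (e : T ⊗ T' ≅ 𝟙_ C) (h1 : R.Deg T (-2)) {X : C} {k : ℕ} {n m : ℤ}
    (hnm : n + 2 * k = m) (h : IsZero (R.H.obj (X⟦m⟧))) :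
    IsZero (R.H.obj ((twist T X k)⟦n⟧)) := by
  rw [← bn_eq_zero_iff] at h ⊢
  rw [bn_twist h1 (tot_invertible e) X k n m hnm, h]

end

end Pool.Agent.Helper812_AF
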